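import Mathlib

/-!
# A trace inequality for fourth powers and Frobenius norms
-/

set_option autoImplicit false

namespace Pool.Agent.H34AH

open Finset Matrix

variable {m : Type*} [Fintype m] [DecidableEq m]

/-- the squared Frobenius norm -/
def fro {a b : Type*} [Fintype a] [Fintype b] (M : Matrix a b ℝ) : ℝ := ∑ i, ∑ j, M i j ^ 2

lemma fro_nonneg {a b : Type*} [Fintype a] [Fintype b] (M : Matrix a b ℝ) : 0 ≤ fro M :=
  sum_nonneg fun _ _ => sum_nonneg fun _ _ => sq_nonneg _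

lemma trace_mul_transpose {a b : Type*} [Fintype a] [Fintype b] (M : Matrix a b ℝ) :
    (M * Mᵀ).trace = fro M := by
  simp only [Matrix.trace, Matrix.diag, Matrix.mul_apply, Matrix.transpose_apply, fro, sq]

lemma fro_mul_le {a b c : Type*} [Fintype a] [Fintype b] [Fintype c] (M : Matrix a b ℝ)
    (N : Matrix b c ℝ) : fro (M * N) ≤ fro M * fro N := by
  have h1 : ∀ i j, (M * N) i j ^ 2 ≤ (∑ k, M i k ^ 2) * ∑ k, N k j ^ 2 := by
    intro i j
    rw [Matrix.mul_apply]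
    exact sum_mul_sq_le_sq_mul_sq _ _ _
  calc fro (M * N) ≤ ∑ i, ∑ j, (∑ k, M i k ^ 2) * ∑ k, N k j ^ 2 :=
        sum_le_sum fun i _ => sum_le_sum fun j _ => h1 i j
    _ = fro M * fro N := by
        unfold fro
        rw [sum_comm (f := fun k j => N k j ^ 2), sum_mul_sum]

lemma fro_add_le {a b : Type*} [Fintype a] [Fintype b] (M N : Matrix a b ℝ) :
    fro (M + N) ≤ 2 * fro M + 2 * fro N := by
  unfold fro
  rw [mul_sum, mul_sum, ← sum_add_distrib]
  apply sum_le_sum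
  intro i _
  rw [mul_sum, mul_sum, ← sum_add_distrib]
  apply sum_le_sum
  intro j _
  rw [Matrix.add_apply]
  nlinarith [sq_nonneg (M i j - N i j)]

lemma trace_fourth_le (B Y : Matrix m m ℝ) (hB : Bᵀ = B) (hY : Yᵀ = Y) :
    ((B + Y) ^ 4).trace ≤ (B ^ 4).trace + 4 * (B ^ 3 * Y).trace + 8 * (B * B * (Y * Y)).trace +
      3 * (Y ^ 4).trace := by
  have cyc : ∀ a b c d : Matrix m m ℝ, (a * b * c * d).trace = (b * c * d * a).trace := by
    intro a b c d
    rw [mul_assoc, mul_assoc, Matrix.trace_mul_comm, mul_assoc b c d]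
  have e : (B + Y) ^ 4 = B * B * B * B + B * B * B * Y + B * B * Y * B + B * B * Y * Y +
      B * Y * B * B + B * Y * B * Y + B * Y * Y * B + B * Y * Y * Y +
      Y * B * B * B + Y * B * B * Y + Y * B * Y * B + Y * B * Y * Y +
      Y * Y * B * B + Y * Y * B * Y + Y * Y * Y * B + Y * Y * Y * Y := by
    noncomm_ring
  have e1 : B ^ 4 = B * B * B * B := by noncomm_ring
  have e2 : B ^ 3 * Y = B * B * B * Y := by noncomm_ring
  have e3 : B * B * (Y * Y) = B * B * Y * Y := by noncomm_ring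
  have e4 : Y ^ 4 = Y * Y * Y * Y := by noncomm_ring
  -- two squares
  have s1 : 0 ≤ (B * B * Y * Y).trace - (B * Y * B * Y).trace := by
    have h := fro_nonneg (B * Y - Y * B)
    rw [← trace_mul_transpose, Matrix.transpose_sub, Matrix.transpose_mul, Matrix.transpose_mul, hB,
      hY] at h
    have e5 : (B * Y - Y * B) * (Y * B - B * Y) = B * Y * Y * B - B * Y * B * Y -
        Y * B * Y * B + Y * B * B * Y := by noncomm_ring
    rw [e5, Matrix.trace_add, Matrix.trace_sub, Matrix.trace_sub] at h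
    have c1 := cyc Y B B Y
    have c2 := cyc B Y Y B
    have c3 := cyc Y B Y B
    have c4 := cyc Y Y B B
    rw [c1, c2, c3, c4] at h
    linarith
  have s2 : 0 ≤ (B * B * Y * Y).trace - 2 * (B * Y * Y * Y).trace + (Y * Y * Y * Y).trace := by
    have h := fro_nonneg (B * Y - Y * Y)
    rw [← trace_mul_transpose, Matrix.transpose_sub, Matrix.transpose_mul, Matrix.transpose_mul, hB,
      hY] at h
    have e5 : (B * Y - Y * Y) * (Y * B - Y * Y) = B * Y * Y * B - B * Y * Y * Y -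
        Y * Y * Y * B + Y * Y * Y * Y := by noncomm_ring
    rw [e5, Matrix.trace_add, Matrix.trace_sub, Matrix.trace_sub] at h
    have c2 := cyc B Y Y B
    have c4 := cyc Y Y B B
    have c5 := cyc B Y Y Y
    rw [c2, c4] at h
    rw [← c5] at h
    have c6 := cyc Y B B Y
    linarith
  rw [e, e1, e2, e3, e4]
  simp only [Matrix.trace_add]
  have c1 := cyc B B Y B
  have c1' := cyc B Y B B
  have c1'' := cyc Y B B B
  have c2 := cyc B Y Y B
  have c3 := cyc Y B B Y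
  have c4 := cyc Y Y B B
  have c5 := cyc Y B Y B
  have c6 := cyc B Y Y Y
  have c7 := cyc Y B Y Y
  have c8 := cyc Y Y B Y
  have c9 := cyc Y Y Y B
  have c10 := cyc B B Y Y
  have c11 := cyc B B B Y
  linarith

lemma trace_fourth_eq (B : Matrix m m ℝ) (hB : Bᵀ = B) : (B ^ 4).trace = fro (B * B) := by
  rw [← trace_mul_transpose, Matrix.transpose_mul, hB]
  congr 1
  noncomm_ring

lemma trace_sq_eq (B : Matrix m m ℝ) (hB : Bᵀ = B) : (B * B).trace = fro B := by
  rw [← trace_mul_transpose, hB]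

/-- squared Euclidean norm of a vector -/
def nsq {a : Type*} [Fintype a] (x : a → ℝ) : ℝ := ∑ i, x i ^ 2

lemma nsq_nonneg {a : Type*} [Fintype a] (x : a → ℝ) : 0 ≤ nsq x := sum_nonneg fun _ _ => sq_nonneg _

lemma dot_self {a : Type*} [Fintype a] (x : a → ℝ) : x ⬝ᵥ x = nsq x := by
  simp only [dotProduct, nsq, sq]

lemma dot_sq_le {a : Type*} [Fintype a] (x y : a → ℝ) : (x ⬝ᵥ y) ^ 2 ≤ nsq x * nsq y :=
  sum_mul_sq_le_sq_mul_sq _ _ _

lemma nsq_mulVec_le {a b : Type*} [Fintype a] [Fintype b] (M : Matrix a b ℝ) (x : b → ℝ) :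
    nsq (M *ᵥ x) ≤ fro M * nsq x := by
  unfold nsq fro
  rw [sum_mul]
  apply sum_le_sum
  intro i _
  exact sum_mul_sq_le_sq_mul_sq _ _ _

/-- a symmetric matrix with small trace of the fourth power has a small quadratic form -/
lemma quad_le (B : Matrix m m ℝ) (hB : Bᵀ = B) {R : ℝ} (hR : 0 ≤ R) (h : (B ^ 4).trace ≤ R ^ 4)
    (y : m → ℝ) : y ⬝ᵥ (B *ᵥ y) ≤ R * nsq y := by
  have h1 := dot_sq_le y (B *ᵥ y)
  have h2 : nsq (B *ᵥ y) = y ⬝ᵥ ((B * B) *ᵥ y) := by
    rw [← dot_self, ← Matrix.mulVec_mulVec, Matrix.dotProduct_mulVec y B, ← Matrix.mulVec_transpose, hB]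
  have h3 := dot_sq_le y ((B * B) *ᵥ y)
  have h4 := nsq_mulVec_le (B * B) y
  rw [trace_fourth_eq B hB] at h
  have hn := nsq_nonneg y
  have h5 : nsq (B *ᵥ y) ^ 2 ≤ (R ^ 2 * nsq y) ^ 2 := by
    rw [h2]
    calc (y ⬝ᵥ ((B * B) *ᵥ y)) ^ 2 ≤ nsq y * nsq ((B * B) *ᵥ y) := h3
      _ ≤ nsq y * (fro (B * B) * nsq y) := mul_le_mul_of_nonneg_left h4 hn
      _ ≤ nsq y * (R ^ 4 * nsq y) := by gcongr
      _ = (R ^ 2 * nsq y) ^ 2 := by ring
  have h6 : nsq (B *ᵥ y) ≤ R ^ 2 * nsq y := by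
    have h7 : 0 ≤ R ^ 2 * nsq y := by positivity
    exact le_of_sq_le_sq h5 h7
  have h8 : (y ⬝ᵥ (B *ᵥ y)) ^ 2 ≤ (R * nsq y) ^ 2 := by
    calc (y ⬝ᵥ (B *ᵥ y)) ^ 2 ≤ nsq y * nsq (B *ᵥ y) := h1
      _ ≤ nsq y * (R ^ 2 * nsq y) := mul_le_mul_of_nonneg_left h6 hn
      _ = (R * nsq y) ^ 2 := by ring
  exact le_of_sq_le_sq h8 (by positivity)

end Pool.Agent.H34AH
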