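import Mathlib
import Pool.Agent.H34AH.Trace

/-!
# One random column
-/

set_option autoImplicit false
set_option linter.unusedSectionVars false

namespace Pool.Agent.H34AH

open Finset Matrix

variable {m : Type*} [Fintype m] [DecidableEq m]

/-- the sign of a truth value -/
def sgn (b : Bool) : ℝ := if b then 1 else -1

/-- the probability of a sign with mean `x` -/
noncomputable def wt (x : ℝ) (b : Bool) : ℝ := (1 + x * sgn b) / 2

/-- the deviations -/
def ev (p : m → ℝ) (a : m → Bool) (i : m) : ℝ := sgn (a i) - p i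

/-- the expectation over independent signs with means `p` -/
noncomputable def Ex (p : m → ℝ) (f : (m → Bool) → ℝ) : ℝ := ∑ a, (∏ i, wt (p i) (a i)) * f a

lemma wt_nonneg {x : ℝ} (hx : |x| ≤ 1) (b : Bool) : 0 ≤ wt x b := by
  have := abs_le.1 hx
  unfold wt sgn
  split_ifs <;> linarith

lemma Ex_prod (p : m → ℝ) (g : m → Bool → ℝ) :
    Ex p (fun a => ∏ i, g i (a i)) = ∏ i, ∑ b, wt (p i) b * g i b := by
  unfold Ex
  rw [Finset.prod_univ_sum, Fintype.piFinset_univ]
  refine sum_congr rfl fun a _ => ?_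
  rw [prod_mul_distrib]

lemma sum_wt (x : ℝ) : ∑ b, wt x b = 1 := by
  simp [wt, sgn]; ring

lemma Ex_const (p : m → ℝ) (c : ℝ) : Ex p (fun _ => c) = c := by
  unfold Ex
  rw [← sum_mul]
  have h := Ex_prod p (fun _ _ => (1 : ℝ))
  unfold Ex at h
  simp only [prod_const_one, mul_one, sum_wt] at h
  rw [h, one_mul]

lemma Ex_add (p : m → ℝ) (f g : (m → Bool) → ℝ) :
    Ex p (fun a => f a + g a) = Ex p f + Ex p g := by
  unfold Ex
  rw [← sum_add_distrib]
  exact sum_congr rfl fun a _ => by ring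

lemma Ex_mul (p : m → ℝ) (c : ℝ) (f : (m → Bool) → ℝ) :
    Ex p (fun a => c * f a) = c * Ex p f := by
  unfold Ex
  rw [mul_sum]
  exact sum_congr rfl fun a _ => by ring

lemma Ex_sum {ι : Type*} (s : Finset ι) (p : m → ℝ) (f : ι → (m → Bool) → ℝ) :
    Ex p (fun a => ∑ i ∈ s, f i a) = ∑ i ∈ s, Ex p (f i) := by
  unfold Ex
  rw [sum_comm]
  exact sum_congr rfl fun a _ => by rw [mul_sum]

lemma Ex_mono {p : m → ℝ} (hp : ∀ i, |p i| ≤ 1) {f g : (m → Bool) → ℝ} (h : ∀ a, f a ≤ g a) :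
    Ex p f ≤ Ex p g := by
  unfold Ex
  apply sum_le_sum
  intro a _
  exact mul_le_mul_of_nonneg_left (h a) (prod_nonneg fun i _ => wt_nonneg (hp i) _)

lemma Ex_exists {p : m → ℝ} (hp : ∀ i, |p i| ≤ 1) {f : (m → Bool) → ℝ} {c : ℝ} (h : Ex p f ≤ c) :
    ∃ a, f a ≤ c := by
  by_contra hcon
  push Not at hcon
  have h1 : Ex p (fun _ => c) ≤ Ex p f := Ex_mono hp fun a => (hcon a).le
  rw [Ex_const] at h1
  have h2 : Ex p f = c := le_antisymm h h1
  have h3 : Ex p (fun a => f a - c) = 0 := by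
    have : (fun a => f a - c) = fun a => f a + (-c) := by funext a; ring
    rw [this, Ex_add, Ex_const, h2]; ring
  have h4 : ∀ a ∈ (univ : Finset (m → Bool)), 0 ≤ (∏ i, wt (p i) (a i)) * (f a - c) := by
    intro a _
    exact mul_nonneg (prod_nonneg fun i _ => wt_nonneg (hp i) _) (by linarith [hcon a])
  unfold Ex at h3
  rw [sum_eq_zero_iff_of_nonneg h4] at h3
  have h5 : Ex p (fun _ => (1 : ℝ)) = 0 := by
    unfold Ex
    apply sum_eq_zero
    intro a ha
    have h6 := h3 a ha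
    rcases mul_eq_zero.1 h6 with h7 | h7
    · rw [h7, zero_mul]
    · linarith [hcon a]
  rw [Ex_const] at h5
  norm_num at h5

/-- moments of the deviations -/
lemma Ex_mon (p : m → ℝ) (k : m → ℕ) : Ex p (fun a => ∏ i, ev p a i ^ k i) =
    ∏ i, ∑ b, wt (p i) b * (sgn b - p i) ^ k i :=
  Ex_prod p (fun i b => (sgn b - p i) ^ k i)

lemma mom_one (x : ℝ) : ∑ b, wt x b * (sgn b - x) ^ 1 = 0 := by
  simp [wt, sgn]; ring

lemma mom_two (x : ℝ) : ∑ b, wt x b * (sgn b - x) ^ 2 = 1 - x ^ 2 := by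
  simp [wt, sgn]; ring

lemma Ex_mon_zero (p : m → ℝ) (k : m → ℕ) (i : m) (hi : k i = 1) :
    Ex p (fun a => ∏ i, ev p a i ^ k i) = 0 := by
  rw [Ex_mon]
  apply prod_eq_zero (mem_univ i)
  rw [hi, mom_one]

lemma prod_single (x : m → ℝ) (i : m) (c : ℕ) : ∏ r, x r ^ (Pi.single i c : m → ℕ) r = x i ^ c := by
  rw [prod_eq_single i]
  · rw [Pi.single_eq_same]
  · intro b _ hb
    rw [Pi.single_eq_of_ne hb, pow_zero]
  · intro h; exact absurd (mem_univ i) h

lemma Ex_pair {p : m → ℝ} {i j : m} (hij : i ≠ j) : Ex p (fun a => ev p a i * ev p a j) = 0 := by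
  have h := Ex_mon_zero p (Pi.single i 1 + Pi.single j 1) i (by
    rw [Pi.add_apply, Pi.single_eq_same, Pi.single_eq_of_ne hij, add_zero])
  rw [← h]
  congr 1
  funext a
  simp only [Pi.add_apply, pow_add, prod_mul_distrib, prod_single, pow_one]

lemma Ex_sq (p : m → ℝ) (i : m) : Ex p (fun a => ev p a i ^ 2) = 1 - p i ^ 2 := by
  have h := Ex_mon p (Pi.single i 2)
  simp only [prod_single] at h
  rw [h, prod_eq_single i]
  · rw [Pi.single_eq_same, mom_two]
  · intro b _ hb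
    rw [Pi.single_eq_of_ne hb]
    simp only [pow_zero, mul_one, sum_wt]
  · intro h; exact absurd (mem_univ i) h

lemma Ex_triple {p : m → ℝ} {i j : m} (hij : i ≠ j) (l : m) :
    Ex p (fun a => ev p a l ^ 2 * (ev p a i * ev p a j)) = 0 := by
  have key : ∀ r : m, (Pi.single l 2 + Pi.single i 1 + Pi.single j 1 : m → ℕ) r = 1 →
      Ex p (fun a => ev p a l ^ 2 * (ev p a i * ev p a j)) = 0 := by
    intro r hr
    have h := Ex_mon_zero p (Pi.single l 2 + Pi.single i 1 + Pi.single j 1) r hr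
    rw [← h]
    congr 1
    funext a
    simp only [Pi.add_apply, pow_add, prod_mul_distrib, prod_single, pow_one]
    ring
  by_cases h : l = j
  · subst h
    apply key i
    simp only [Pi.add_apply]
    rw [Pi.single_eq_of_ne hij, Pi.single_eq_same, Pi.single_eq_of_ne hij, zero_add, add_zero]
  · apply key j
    simp only [Pi.add_apply]
    rw [Pi.single_eq_of_ne (Ne.symm h), Pi.single_eq_same, Pi.single_eq_of_ne hij.symm, zero_add,
      zero_add]

lemma Ex_sq_sq {p : m → ℝ} {i j : m} (hij : i ≠ j) :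
    Ex p (fun a => ev p a i ^ 2 * ev p a j ^ 2) = (1 - p i ^ 2) * (1 - p j ^ 2) := by
  have h := Ex_mon p (Pi.single i 2 + Pi.single j 2)
  simp only [Pi.add_apply, pow_add, prod_mul_distrib, prod_single] at h
  rw [h, ← mul_prod_erase _ _ (mem_univ i), ← mul_prod_erase _ _ (mem_erase.2 ⟨hij.symm, mem_univ j⟩)]
  have e : ∏ x ∈ (univ.erase i).erase j, ∑ b, wt (p x) b * ((sgn b - p x) ^ (Pi.single i 2 : m → ℕ) x *
      (sgn b - p x) ^ (Pi.single j 2 : m → ℕ) x) = 1 := by
    apply prod_eq_one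
    intro x hx
    rw [mem_erase, mem_erase] at hx
    rw [Pi.single_eq_of_ne hx.1, Pi.single_eq_of_ne hx.2.1]
    simp only [pow_zero, mul_one, sum_wt]
  rw [e, mul_one, Pi.single_eq_same, Pi.single_eq_same, Pi.single_eq_of_ne hij,
    Pi.single_eq_of_ne hij.symm]
  simp only [pow_zero, mul_one, one_mul, mom_two]

lemma ev_sq_le {p : m → ℝ} (hp : ∀ i, |p i| ≤ 1) (a : m → Bool) (i : m) : ev p a i ^ 2 ≤ 4 := by
  have := abs_le.1 (hp i)
  unfold ev sgn
  split_ifs <;> nlinarith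

/-- the centred rank one matrix -/
def Ym (p : m → ℝ) (a : m → Bool) : Matrix m m ℝ :=
  Matrix.of fun i j => ev p a i * ev p a j - if i = j then 1 - p i ^ 2 else 0

lemma Ym_symm (p : m → ℝ) (a : m → Bool) : (Ym p a)ᵀ = Ym p a := by
  ext i j
  simp only [Ym, Matrix.transpose_apply, Matrix.of_apply]
  by_cases h : i = j
  · subst h; rfl
  · rw [if_neg h, if_neg (Ne.symm h)]; ring

lemma Ex_Ym (p : m → ℝ) (i j : m) : Ex p (fun a => Ym p a i j) = 0 := by
  simp only [Ym, Matrix.of_apply]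
  by_cases h : i = j
  · subst h
    simp only [if_true]
    have e : (fun a => ev p a i * ev p a i - (1 - p i ^ 2)) =
        fun a => ev p a i ^ 2 + (-(1 - p i ^ 2)) := by funext a; ring
    rw [e, Ex_add, Ex_const, Ex_sq]; ring
  · simp only [if_neg h, sub_zero]
    exact Ex_pair h

lemma Ex_trace_Ym (p : m → ℝ) (M : Matrix m m ℝ) : Ex p (fun a => (M * Ym p a).trace) = 0 := by
  simp only [Matrix.trace, Matrix.diag, Matrix.mul_apply]
  rw [Ex_sum]
  apply sum_eq_zero
  intro i _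
  rw [Ex_sum]
  apply sum_eq_zero
  intro j _
  rw [Ex_mul, Ex_Ym, mul_zero]

/-- the entries of the square -/
lemma Ym_sq (p : m → ℝ) (a : m → Bool) (i j : m) : (Ym p a * Ym p a) i j =
    (∑ l, ev p a l ^ 2 * (ev p a i * ev p a j)) + (-(2 - p i ^ 2 - p j ^ 2)) * (ev p a i * ev p a j) +
      (if i = j then (1 - p i ^ 2) ^ 2 else 0) := by
  rw [Matrix.mul_apply]
  simp only [Ym, Matrix.of_apply]
  have e : ∀ l, (ev p a i * ev p a l - if i = l then 1 - p i ^ 2 else 0) *
      (ev p a l * ev p a j - if l = j then 1 - p l ^ 2 else 0) =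
      ev p a l ^ 2 * (ev p a i * ev p a j) - (if l = j then ev p a i * ev p a l * (1 - p l ^ 2) else 0)
      - (if i = l then (1 - p i ^ 2) * (ev p a l * ev p a j) else 0) +
      (if i = l then (if l = j then (1 - p i ^ 2) * (1 - p l ^ 2) else 0) else 0) := by
    intro l
    split_ifs <;> ring
  rw [sum_congr rfl fun l _ => e l]
  rw [sum_add_distrib, sum_sub_distrib, sum_sub_distrib]
  simp only [sum_ite_eq, sum_ite_eq', mem_univ, if_true]
  by_cases h : i = j
  · subst h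
    simp only [if_true]; ring
  · simp only [if_neg h]; ring

lemma Ex_Ym_sq_off (p : m → ℝ) {i j : m} (hij : i ≠ j) :
    Ex p (fun a => (Ym p a * Ym p a) i j) = 0 := by
  simp only [Ym_sq, if_neg hij, add_zero]
  rw [Ex_add, Ex_sum, Ex_mul, Ex_pair hij, mul_zero, add_zero]
  exact sum_eq_zero fun l _ => Ex_triple hij l

lemma Ex_Ym_sq_diag {p : m → ℝ} (hp : ∀ i, |p i| ≤ 1) {τ : ℝ} (hτ : ∀ i, 1 - p i ^ 2 ≤ τ) (i : m) :
    Ex p (fun a => (Ym p a * Ym p a) i i) ≤ (Fintype.card m : ℝ) * τ ^ 2 + 4 * τ := by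
  have hd : ∀ i, 0 ≤ 1 - p i ^ 2 := by
    intro i
    have := abs_le.1 (hp i)
    nlinarith
  have hτ0 : 0 ≤ τ := (hd i).trans (hτ i)
  simp only [Ym_sq, if_true]
  rw [Ex_add, Ex_add, Ex_sum, Ex_mul, Ex_const]
  have e1 : Ex p (fun a => ev p a i * ev p a i) = 1 - p i ^ 2 := by
    rw [← Ex_sq]; congr 1; funext a; ring
  rw [e1]
  have h1 : ∀ l, Ex p (fun a => ev p a l ^ 2 * (ev p a i * ev p a i)) ≤
      τ ^ 2 + if l = i then 4 * τ else 0 := by
    intro l
    by_cases h : l = i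
    · subst h
      rw [if_pos rfl]
      have h2 : Ex p (fun a => ev p a l ^ 2 * (ev p a l * ev p a l)) ≤
          Ex p (fun a => 4 * ev p a l ^ 2) := by
        apply Ex_mono hp
        intro a
        have := ev_sq_le hp a l
        nlinarith [sq_nonneg (ev p a l)]
      rw [Ex_mul, Ex_sq] at h2
      nlinarith [hτ l, sq_nonneg τ]
    · rw [if_neg h, add_zero]
      have e : (fun a => ev p a l ^ 2 * (ev p a i * ev p a i)) =
          fun a => ev p a l ^ 2 * ev p a i ^ 2 := by funext a; ring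
      rw [e, Ex_sq_sq h, sq τ]
      exact mul_le_mul (hτ l) (hτ i) (hd i) hτ0
  have h2 : ∑ l, Ex p (fun a => ev p a l ^ 2 * (ev p a i * ev p a i)) ≤
      (Fintype.card m : ℝ) * τ ^ 2 + 4 * τ := by
    refine (sum_le_sum fun l _ => h1 l).trans ?_
    rw [sum_add_distrib, sum_const, sum_ite_eq', if_pos (mem_univ i), nsmul_eq_mul, card_univ]
  have h3 := hd i
  nlinarith [h2, sq_nonneg (1 - p i ^ 2)]

lemma Ex_trace_Ym_sq {p : m → ℝ} (hp : ∀ i, |p i| ≤ 1) {τ : ℝ} (hτ : ∀ i, 1 - p i ^ 2 ≤ τ)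
    (M : Matrix m m ℝ) (hM : ∀ i, 0 ≤ M i i) :
    Ex p (fun a => (M * (Ym p a * Ym p a)).trace) ≤
      ((Fintype.card m : ℝ) * τ ^ 2 + 4 * τ) * M.trace := by
  have e : Ex p (fun a => (M * (Ym p a * Ym p a)).trace) =
      ∑ i, ∑ j, M i j * Ex p (fun a => (Ym p a * Ym p a) j i) := by
    have e0 : (fun a => (M * (Ym p a * Ym p a)).trace) =
        fun a => ∑ i, ∑ j, M i j * (Ym p a * Ym p a) j i := by
      funext a
      simp only [Matrix.trace, Matrix.diag]
      exact sum_congr rfl fun i _ => Matrix.mul_apply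
    rw [e0, Ex_sum]
    refine sum_congr rfl fun i _ => ?_
    rw [Ex_sum]
    exact sum_congr rfl fun j _ => by rw [Ex_mul]
  rw [e, Matrix.trace, mul_sum]
  apply sum_le_sum
  intro i _
  rw [sum_eq_single i]
  · rw [mul_comm]
    exact mul_le_mul_of_nonneg_right (Ex_Ym_sq_diag hp hτ i) (hM i)
  · intro j _ hj
    rw [Ex_Ym_sq_off p hj, mul_zero]
  · intro h; exact absurd (mem_univ i) h

end Pool.Agent.H34AH
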