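import Mathlib
import Pool.Agent.H34AH.Rand

/-!
# Signs which are balanced with respect to many vectors
-/

set_option autoImplicit false
set_option linter.unusedSectionVars false

namespace Pool.Agent.H34AH

open Finset

variable {m : Type*} [Fintype m] [DecidableEq m] {T : Type*} [Fintype T]

lemma Ex_exp_le (u : m → ℝ) (l : ℝ) (hu : ∑ i, u i ^ 2 ≤ 1) :
    Ex (fun _ : m => (0 : ℝ)) (fun a => Real.exp (l * ∑ i, u i * sgn (a i))) ≤
      Real.exp (l ^ 2 / 2) := by
  have e1 : (fun a : m → Bool => Real.exp (l * ∑ i, u i * sgn (a i))) =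
      fun a => ∏ i, Real.exp (l * (u i * sgn (a i))) := by
    funext a
    rw [mul_sum, Real.exp_sum]
  rw [e1, Ex_prod (fun _ : m => (0 : ℝ)) (fun i b => Real.exp (l * (u i * sgn b)))]
  have e2 : ∀ i, ∑ b, wt 0 b * Real.exp (l * (u i * sgn b)) = Real.cosh (l * u i) := by
    intro i
    rw [Fintype.sum_bool, Real.cosh_eq]
    simp only [wt, sgn, if_true, Bool.false_eq_true, if_false]
    rw [mul_one, mul_neg_one, mul_neg]
    ring
  simp only [e2]
  calc ∏ i, Real.cosh (l * u i) ≤ ∏ i, Real.exp ((l * u i) ^ 2 / 2) := by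
        apply prod_le_prod
        · intro i _; exact (Real.cosh_pos _).le
        · intro i _; exact Real.cosh_le_exp_half_sq _
    _ = Real.exp (∑ i, (l * u i) ^ 2 / 2) := (Real.exp_sum _ _).symm
    _ ≤ Real.exp (l ^ 2 / 2) := by
        apply Real.exp_le_exp.2
        have : ∑ i, (l * u i) ^ 2 / 2 = l ^ 2 / 2 * ∑ i, u i ^ 2 := by
          rw [mul_sum]
          exact sum_congr rfl fun i _ => by ring
        rw [this]
        nlinarith [sq_nonneg l]

/-- balanced signs -/
theorem exists_flat (v : T → m → ℝ) (R : T → ℝ) (hR : ∀ t, 0 < R t)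
    (hv : ∀ t, ∑ i, v t i ^ 2 ≤ R t ^ 2) {L : ℝ} (hL : 0 < L)
    (hT : Real.log (2 * (Fintype.card T : ℝ)) ≤ L ^ 2 / 2) :
    ∃ a : m → Bool, ∀ t, |∑ i, v t i * sgn (a i)| ≤ L * R t := by
  rcases isEmpty_or_nonempty T with hE | hE
  · exact ⟨fun _ => true, fun t => (hE.false t).elim⟩
  have hM : (1 : ℝ) ≤ Fintype.card T := by exact_mod_cast Fintype.card_pos
  set u : T → m → ℝ := fun t i => v t i / R t with hu
  have hu1 : ∀ t, ∑ i, u t i ^ 2 ≤ 1 := by
    intro t
    have h1 : ∑ i, u t i ^ 2 = (∑ i, v t i ^ 2) / R t ^ 2 := by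
      rw [sum_div]
      exact sum_congr rfl fun i _ => by simp only [hu]; rw [div_pow]
    rw [h1, div_le_one (pow_pos (hR t) 2)]
    exact hv t
  have h1 : Ex (fun _ : m => (0 : ℝ)) (fun a => ∑ t, (Real.exp (L * ∑ i, u t i * sgn (a i)) +
      Real.exp ((-L) * ∑ i, u t i * sgn (a i)))) ≤
      2 * (Fintype.card T : ℝ) * Real.exp (L ^ 2 / 2) := by
    rw [Ex_sum]
    have h2 : ∀ t, Ex (fun _ : m => (0 : ℝ)) (fun a => Real.exp (L * ∑ i, u t i * sgn (a i)) +
      Real.exp ((-L) * ∑ i, u t i * sgn (a i))) ≤ 2 * Real.exp (L ^ 2 / 2) := by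
      intro t
      rw [Ex_add]
      have h3 := Ex_exp_le (u t) L (hu1 t)
      have h4 := Ex_exp_le (u t) (-L) (hu1 t)
      rw [neg_sq] at h4
      linarith
    refine (sum_le_sum fun t _ => h2 t).trans ?_
    rw [sum_const, nsmul_eq_mul, card_univ]
    linarith
  obtain ⟨a, ha⟩ := Ex_exists (p := fun _ : m => (0 : ℝ)) (fun i => by simp) h1
  refine ⟨a, fun t => ?_⟩
  have h2 : Real.exp (L * |∑ i, u t i * sgn (a i)|) ≤ Real.exp (L ^ 2) := by
    have h3 : Real.exp (L * |∑ i, u t i * sgn (a i)|) ≤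
        Real.exp (L * ∑ i, u t i * sgn (a i)) + Real.exp ((-L) * ∑ i, u t i * sgn (a i)) := by
      rcases abs_cases (∑ i, u t i * sgn (a i)) with h | h
      · rw [h.1]
        have := Real.exp_pos ((-L) * ∑ i, u t i * sgn (a i))
        linarith
      · rw [h.1]
        have := Real.exp_pos (L * ∑ i, u t i * sgn (a i))
        have e : L * -∑ i, u t i * sgn (a i) = (-L) * ∑ i, u t i * sgn (a i) := by ring
        rw [e]
        linarith
    have h4 : Real.exp (L * ∑ i, u t i * sgn (a i)) + Real.exp ((-L) * ∑ i, u t i * sgn (a i)) ≤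
        ∑ t, (Real.exp (L * ∑ i, u t i * sgn (a i)) +
          Real.exp ((-L) * ∑ i, u t i * sgn (a i))) :=
      single_le_sum (f := fun t => Real.exp (L * ∑ i, u t i * sgn (a i)) +
          Real.exp ((-L) * ∑ i, u t i * sgn (a i))) (fun t _ => by positivity) (mem_univ t)
    have h5 : 2 * (Fintype.card T : ℝ) * Real.exp (L ^ 2 / 2) ≤ Real.exp (L ^ 2) := by
      have h6 : 2 * (Fintype.card T : ℝ) ≤ Real.exp (L ^ 2 / 2) := by
        rw [← Real.log_le_iff_le_exp (by positivity)]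
        exact hT
      calc 2 * (Fintype.card T : ℝ) * Real.exp (L ^ 2 / 2) ≤
          Real.exp (L ^ 2 / 2) * Real.exp (L ^ 2 / 2) :=
            mul_le_mul_of_nonneg_right h6 (Real.exp_pos _).le
        _ = Real.exp (L ^ 2) := by rw [← Real.exp_add]; congr 1; ring
    linarith
  have h3 := Real.exp_le_exp.1 h2
  have h4 : |∑ i, u t i * sgn (a i)| ≤ L := by
    have : L * |∑ i, u t i * sgn (a i)| ≤ L * L := by rw [← sq]; exact h3
    exact le_of_mul_le_mul_left this hL
  have h5 : ∑ i, v t i * sgn (a i) = R t * ∑ i, u t i * sgn (a i) := by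
    rw [mul_sum]
    refine sum_congr rfl fun i _ => ?_
    simp only [hu]
    have := (hR t).ne'
    field_simp
  rw [h5, abs_mul, abs_of_pos (hR t), mul_comm]
  exact mul_le_mul_of_nonneg_right h4 (hR t).le

end Pool.Agent.H34AH
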