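import Mathlib
import Pool.Agent.H34AH.Rand

/-!
# A random sign matrix is close to its mean
-/

set_option autoImplicit false
set_option linter.unusedSectionVars false

namespace Pool.Agent.H34AH

open Finset Matrix

variable {m : Type*} [Fintype m] [DecidableEq m]

lemma fro_Ym_le {p : m → ℝ} (hp : ∀ i, |p i| ≤ 1) {τ : ℝ} (hτ : ∀ i, 1 - p i ^ 2 ≤ τ)
    (a : m → Bool) : fro (Ym p a) ≤ 2 * (∑ i, ev p a i ^ 2) ^ 2 +
      2 * ((Fintype.card m : ℝ) * τ ^ 2) := by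
  have e : Ym p a = Matrix.of (fun i j => ev p a i * ev p a j) +
      Matrix.of (fun i j => if i = j then -(1 - p i ^ 2) else 0) := by
    ext i j
    simp only [Ym, Matrix.of_apply, Matrix.add_apply]
    split_ifs <;> ring
  rw [e]
  refine (fro_add_le _ _).trans ?_
  have h1 : fro (Matrix.of (fun i j => ev p a i * ev p a j)) = (∑ i, ev p a i ^ 2) ^ 2 := by
    unfold fro
    rw [sq, sum_mul_sum]
    refine sum_congr rfl fun i _ => sum_congr rfl fun j _ => ?_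
    rw [Matrix.of_apply]; ring
  have h2 : fro (Matrix.of (fun i j : m => if i = j then -(1 - p i ^ 2) else 0)) ≤
      (Fintype.card m : ℝ) * τ ^ 2 := by
    unfold fro
    have : ∀ i ∈ (univ : Finset m), ∑ j, (Matrix.of (fun i j : m => if i = j then -(1 - p i ^ 2) else 0)) i j ^ 2
        ≤ τ ^ 2 := by
      intro i _
      rw [sum_eq_single i]
      · rw [Matrix.of_apply, if_pos rfl]
        have h3 := abs_le.1 (hp i)
        have h4 : 0 ≤ 1 - p i ^ 2 := by nlinarith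
        have h5 := hτ i
        nlinarith
      · intro j _ hj
        rw [Matrix.of_apply, if_neg (Ne.symm hj)]; norm_num
      · intro h; exact absurd (mem_univ i) h
    refine (sum_le_sum this).trans ?_
    rw [sum_const, nsmul_eq_mul, card_univ]
  rw [h1]
  linarith

lemma one_add_sum_le_prod {ι : Type*} (s : Finset ι) (x : ι → ℝ) (hx : ∀ i, 0 ≤ x i) :
    1 + ∑ i ∈ s, x i ≤ ∏ i ∈ s, (1 + x i) := by
  classical
  induction s using Finset.induction_on with
  | empty => simp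
  | insert i s hi ih =>
    rw [sum_insert hi, prod_insert hi]
    have h1 : 0 ≤ ∑ i ∈ s, x i := sum_nonneg fun i _ => hx i
    nlinarith [hx i, mul_nonneg (hx i) h1, mul_le_mul_of_nonneg_left ih (show 0 ≤ 1 + x i by linarith [hx i])]

lemma Ex_pow_four {p : m → ℝ} (hp : ∀ i, |p i| ≤ 1) {τ : ℝ} (hτ : ∀ i, 1 - p i ^ 2 ≤ τ)
    {c : ℝ} (hc4 : 4 ≤ c) (hc : (Fintype.card m : ℝ) * τ ≤ c) :
    Ex p (fun a => (∑ i, ev p a i ^ 2) ^ 4) ≤ Real.exp 15 * c ^ 4 := by
  have hc0 : 0 < c := by linarith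
  have h1 : ∀ a, (∑ i, ev p a i ^ 2) ^ 4 ≤ c ^ 4 * ∏ i, (1 + 15 * (ev p a i ^ 2 / c)) := by
    intro a
    have hx0 : ∀ i, 0 ≤ ev p a i ^ 2 / c := fun i => by positivity
    have hx1 : ∀ i, ev p a i ^ 2 / c ≤ 1 := by
      intro i
      rw [div_le_one hc0]
      exact (ev_sq_le hp a i).trans hc4
    have h2 := one_add_sum_le_prod univ (fun i => ev p a i ^ 2 / c) hx0
    have h3 : ∑ i, ev p a i ^ 2 ≤ c * ∏ i, (1 + ev p a i ^ 2 / c) := by
      have h4 : ∑ i, ev p a i ^ 2 = c * ∑ i, ev p a i ^ 2 / c := by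
        rw [← sum_div, mul_div_cancel₀ _ hc0.ne']
      rw [h4]
      apply mul_le_mul_of_nonneg_left _ hc0.le
      linarith
    have h5 : (∑ i, ev p a i ^ 2) ^ 4 ≤ (c * ∏ i, (1 + ev p a i ^ 2 / c)) ^ 4 :=
      pow_le_pow_left₀ (sum_nonneg fun i _ => sq_nonneg _) h3 4
    refine h5.trans ?_
    rw [mul_pow, ← prod_pow]
    apply mul_le_mul_of_nonneg_left _ (by positivity)
    apply prod_le_prod
    · intro i _
      have := hx0 i
      positivity
    · intro i _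
      have h6 := hx0 i
      have h7 := hx1 i
      generalize ev p a i ^ 2 / c = x at h6 h7
      nlinarith [mul_nonneg h6 (sub_nonneg.2 h7), mul_nonneg (mul_nonneg h6 h6) (sub_nonneg.2 h7),
        mul_nonneg (mul_nonneg (mul_nonneg h6 h6) h6) (sub_nonneg.2 h7)]
  refine (Ex_mono hp h1).trans ?_
  rw [Ex_mul, mul_comm]
  apply mul_le_mul_of_nonneg_right _ (by positivity)
  have h2 := Ex_prod p (fun i b => 1 + 15 * ((sgn b - p i) ^ 2 / c))
  have e : (fun a => ∏ i, (1 + 15 * (ev p a i ^ 2 / c))) =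
      fun a : m → Bool => ∏ i, (1 + 15 * ((sgn (a i) - p i) ^ 2 / c)) := rfl
  rw [e, h2]
  have h3 : ∀ i, ∑ b, wt (p i) b * (1 + 15 * ((sgn b - p i) ^ 2 / c)) =
      1 + 15 * ((1 - p i ^ 2) / c) := by
    intro i
    have h4 := sum_wt (p i)
    have h5 := mom_two (p i)
    have h6 : ∑ b, wt (p i) b * (1 + 15 * ((sgn b - p i) ^ 2 / c)) =
        ∑ b, wt (p i) b + 15 / c * ∑ b, wt (p i) b * (sgn b - p i) ^ 2 := by
      rw [mul_sum, ← sum_add_distrib]
      exact sum_congr rfl fun b _ => by ring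
    rw [h6, h4, h5]; ring
  simp only [h3]
  have h4 : ∏ i : m, (1 + 15 * ((1 - p i ^ 2) / c)) ≤ ∏ _i : m, Real.exp (15 * τ / c) := by
    apply prod_le_prod
    · intro i _
      have h5 := abs_le.1 (hp i)
      have h6 : 0 ≤ 1 - p i ^ 2 := by nlinarith
      positivity
    · intro i _
      have h7 : 15 * ((1 - p i ^ 2) / c) ≤ 15 * τ / c := by
        rw [mul_div_assoc]
        apply mul_le_mul_of_nonneg_left _ (by norm_num)
        exact div_le_div_of_nonneg_right (hτ i) hc0.le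
      have := Real.add_one_le_exp (15 * τ / c)
      linarith
  refine h4.trans ?_
  rw [prod_const, ← Real.exp_nat_mul, card_univ]
  apply Real.exp_le_exp.2
  rw [← mul_div_assoc, div_le_iff₀ hc0]
  nlinarith

lemma Ex_trace_Ym_four {p : m → ℝ} (hp : ∀ i, |p i| ≤ 1) {τ : ℝ} (hτ : ∀ i, 1 - p i ^ 2 ≤ τ)
    (hN : 4 ≤ (Fintype.card m : ℝ) * τ) :
    Ex p (fun a => ((Ym p a) ^ 4).trace) ≤
      (8 * Real.exp 15 + 8) * ((Fintype.card m : ℝ) * τ) ^ 4 := by
  have h1 : ∀ a, ((Ym p a) ^ 4).trace ≤ 8 * (∑ i, ev p a i ^ 2) ^ 4 +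
      8 * ((Fintype.card m : ℝ) * τ ^ 2) ^ 2 := by
    intro a
    rw [trace_fourth_eq _ (Ym_symm p a)]
    refine (fro_mul_le _ _).trans ?_
    have h2 := fro_Ym_le hp hτ a
    have h3 := fro_nonneg (Ym p a)
    have h4 : fro (Ym p a) * fro (Ym p a) ≤ (2 * (∑ i, ev p a i ^ 2) ^ 2 +
      2 * ((Fintype.card m : ℝ) * τ ^ 2)) * (2 * (∑ i, ev p a i ^ 2) ^ 2 +
      2 * ((Fintype.card m : ℝ) * τ ^ 2)) := mul_le_mul h2 h2 h3 (h3.trans h2)
    refine h4.trans ?_
    generalize (∑ i, ev p a i ^ 2) = S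
    generalize ((Fintype.card m : ℝ) * τ ^ 2) = T
    nlinarith [sq_nonneg (S ^ 2 - T)]
  refine (Ex_mono hp h1).trans ?_
  rw [Ex_add, Ex_mul, Ex_const]
  have h2 := Ex_pow_four hp hτ hN le_rfl
  have hcard : (1 : ℝ) ≤ Fintype.card m := by
    rcases Nat.eq_zero_or_pos (Fintype.card m) with h | h
    · rw [h] at hN; norm_num at hN
    · exact_mod_cast h
  have h3 : ((Fintype.card m : ℝ) * τ ^ 2) ^ 2 ≤ ((Fintype.card m : ℝ) * τ) ^ 4 := by
    have h4 : ((Fintype.card m : ℝ) * τ) ^ 4 = ((Fintype.card m : ℝ) * τ ^ 2) ^ 2 *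
      (Fintype.card m : ℝ) ^ 2 := by ring
    rw [h4]
    apply le_mul_of_one_le_right (sq_nonneg _)
    nlinarith
  linarith

/-- the potential -/
noncomputable def Pot (c : ℝ) (B : Matrix m m ℝ) : ℝ := (B ^ 4).trace + c * (B * B).trace

/-- one step -/
lemma step {p : m → ℝ} (hp : ∀ i, |p i| ≤ 1) {τ : ℝ} (hτ : ∀ i, 1 - p i ^ 2 ≤ τ)
    (hN : 4 ≤ (Fintype.card m : ℝ) * τ) (B : Matrix m m ℝ) (hB : Bᵀ = B) {c : ℝ} (hc : 0 ≤ c) :
    ∃ a : m → Bool, Pot c (B + Ym p a) ≤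
      Pot (c + 16 * ((Fintype.card m : ℝ) * τ ^ 2)) B +
        (24 * Real.exp 15 + 24) * ((Fintype.card m : ℝ) * τ) ^ 4 +
        c * (2 * ((Fintype.card m : ℝ) * τ) ^ 2) := by
  set N : ℝ := (Fintype.card m : ℝ) with hNdef
  have hN0 : 0 ≤ N := Nat.cast_nonneg _
  have hτ0 : 0 ≤ τ := by
    by_contra h
    push Not at h
    nlinarith
  have hρ : N * τ ^ 2 + 4 * τ ≤ 2 * (N * τ ^ 2) := by nlinarith
  apply Ex_exists hp
  have h1 : ∀ a, Pot c (B + Ym p a) ≤ Pot c B + 4 * (B ^ 3 * Ym p a).trace +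
      8 * (B * B * (Ym p a * Ym p a)).trace + 3 * ((Ym p a) ^ 4).trace +
      2 * c * (B * Ym p a).trace + c * (1 * (Ym p a * Ym p a)).trace := by
    intro a
    have h2 := trace_fourth_le B (Ym p a) hB (Ym_symm p a)
    have h3 : ((B + Ym p a) * (B + Ym p a)).trace = (B * B).trace + 2 * (B * Ym p a).trace +
        (1 * (Ym p a * Ym p a)).trace := by
      have e : (B + Ym p a) * (B + Ym p a) = B * B + B * Ym p a + Ym p a * B + 1 * (Ym p a * Ym p a) := by
        noncomm_ring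
      rw [e, Matrix.trace_add, Matrix.trace_add, Matrix.trace_add, Matrix.trace_mul_comm (Ym p a) B]
      ring
    unfold Pot
    rw [h3]
    linarith
  refine (Ex_mono hp h1).trans ?_
  rw [Ex_add, Ex_add, Ex_add, Ex_add, Ex_add, Ex_const, Ex_mul, Ex_mul, Ex_mul, Ex_mul, Ex_mul,
    Ex_trace_Ym, Ex_trace_Ym]
  have hBB : ∀ i, 0 ≤ (B * B) i i := by
    intro i
    have : (B * B) i i = ∑ j, B i j ^ 2 := by
      rw [Matrix.mul_apply]
      refine sum_congr rfl fun j _ => ?_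
      have : B j i = B i j := by
        conv_lhs => rw [← hB]
        rfl
      rw [this]; ring
    rw [this]
    exact sum_nonneg fun j _ => sq_nonneg _
  have h2 := Ex_trace_Ym_sq hp hτ (B * B) hBB
  have h3 := Ex_trace_Ym_sq hp hτ (1 : Matrix m m ℝ) (fun i => by simp)
  have h4 := Ex_trace_Ym_four hp hτ hN
  rw [Matrix.trace_one] at h3
  rw [← hNdef] at h2 h3 h4
  have h5 : 0 ≤ (B * B).trace := sum_nonneg fun i _ => hBB i
  have h6 : (N * τ ^ 2 + 4 * τ) * (B * B).trace ≤ 2 * (N * τ ^ 2) * (B * B).trace :=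
    mul_le_mul_of_nonneg_right hρ h5
  have h7 : (N * τ ^ 2 + 4 * τ) * N ≤ 2 * (N * τ ^ 2) * N := mul_le_mul_of_nonneg_right hρ hN0
  have h8 : c * Ex p (fun a => (1 * (Ym p a * Ym p a)).trace) ≤ c * (2 * (N * τ) ^ 2) := by
    apply mul_le_mul_of_nonneg_left _ hc
    have : 2 * (N * τ ^ 2) * N = 2 * (N * τ) ^ 2 := by ring
    linarith
  unfold Pot
  linarith

end Pool.Agent.H34AH
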