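import Mathlib
import Pool.Agent.H34AH.Noise

/-!
# Rounding a matrix to signs with a small error in the operator norm
-/

set_option autoImplicit false
set_option linter.unusedSectionVars false

namespace Pool.Agent.H34AH

open Finset Matrix

variable {m : Type*} [Fintype m] [DecidableEq m] {κ : Type*} [Fintype κ] [DecidableEq κ]

lemma sum_Ym_symm (P : κ → m → ℝ) (a : κ → m → Bool) (s : Finset κ) :
    (∑ j ∈ s, Ym (P j) (a j))ᵀ = ∑ j ∈ s, Ym (P j) (a j) := by
  rw [Matrix.transpose_sum]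
  exact sum_congr rfl fun j _ => Ym_symm _ _

lemma iterate (P : κ → m → ℝ) (hP : ∀ j i, |P j i| ≤ 1) {τ : ℝ} (hτ : ∀ j i, 1 - P j i ^ 2 ≤ τ)
    (hN : 4 ≤ (Fintype.card m : ℝ) * τ) (hK : Fintype.card κ ≤ Fintype.card m) (s : Finset κ) :
    ∃ a : κ → m → Bool,
      Pot (((Fintype.card κ : ℝ) - s.card) * (16 * ((Fintype.card m : ℝ) * τ ^ 2)))
        (∑ j ∈ s, Ym (P j) (a j)) ≤ s.card * (10 ^ 8 * ((Fintype.card m : ℝ) * τ) ^ 4) := by
  set N : ℝ := (Fintype.card m : ℝ) with hNdef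
  have hN0 : 0 ≤ N := Nat.cast_nonneg _
  have hKR : (Fintype.card κ : ℝ) ≤ N := Nat.cast_le.2 hK
  induction s using Finset.induction_on with
  | empty =>
    refine ⟨fun _ _ => true, ?_⟩
    simp [Pot]
  | insert k s hk ih =>
    obtain ⟨a, ha⟩ := ih
    have hcard : ((insert k s).card : ℝ) = s.card + 1 := by
      rw [card_insert_of_notMem hk]; push_cast; ring
    have hle : ((insert k s).card : ℝ) ≤ Fintype.card κ := by
      exact_mod_cast card_le_univ (insert k s)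
    rw [hcard] at hle ⊢
    have hs0 : (0 : ℝ) ≤ s.card := Nat.cast_nonneg _
    set c : ℝ := ((Fintype.card κ : ℝ) - (s.card + 1)) * (16 * (N * τ ^ 2)) with hc
    have hc0 : 0 ≤ c := mul_nonneg (by linarith) (by positivity)
    obtain ⟨b, hb⟩ := step (hP k) (hτ k) hN (∑ j ∈ s, Ym (P j) (a j)) (sum_Ym_symm P a s) hc0
    rw [← hNdef] at hb
    refine ⟨Function.update a k b, ?_⟩
    have e1 : ∑ j ∈ insert k s, Ym (P j) (Function.update a k b j) =
        ∑ j ∈ s, Ym (P j) (a j) + Ym (P k) b := by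
      rw [sum_insert hk, Function.update_self, add_comm]
      congr 1
      refine sum_congr rfl fun j hj => ?_
      rw [Function.update_of_ne]
      rintro rfl
      exact hk hj
    rw [e1]
    refine hb.trans ?_
    have e2 : c + 16 * (N * τ ^ 2) = ((Fintype.card κ : ℝ) - s.card) * (16 * (N * τ ^ 2)) := by
      rw [hc]; ring
    rw [e2]
    have h2 : c ≤ N * (16 * (N * τ ^ 2)) := by
      rw [hc]
      apply mul_le_mul_of_nonneg_right _ (by positivity)
      linarith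
    have h3 : c * (2 * (N * τ) ^ 2) ≤ 32 * (N * τ) ^ 4 := by
      calc c * (2 * (N * τ) ^ 2) ≤ N * (16 * (N * τ ^ 2)) * (2 * (N * τ) ^ 2) :=
            mul_le_mul_of_nonneg_right h2 (by positivity)
        _ = 32 * (N * τ) ^ 4 := by ring
    have h4 : 24 * Real.exp 15 + 56 ≤ 10 ^ 8 := by
      have h5 : Real.exp 15 = Real.exp 1 ^ 15 := by
        rw [← Real.exp_nat_mul]; norm_num
      have h6 : Real.exp 1 ^ 15 ≤ 2.7182818286 ^ 15 :=
        pow_le_pow_left₀ (Real.exp_pos _).le Real.exp_one_lt_d9.le 15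
      rw [h5]
      norm_num at h6 ⊢
      linarith
    have h7 : (24 * Real.exp 15 + 56) * (N * τ) ^ 4 ≤ 10 ^ 8 * (N * τ) ^ 4 :=
      mul_le_mul_of_nonneg_right h4 (by positivity)
    linarith

/-- rounding to signs; `q ^ 4` is the number of rows -/
theorem exists_round (P : κ → m → ℝ) (hP : ∀ j i, |P j i| ≤ 1) {τ : ℝ}
    (hτ : ∀ j i, 1 - P j i ^ 2 ≤ τ) (hN : 4 ≤ (Fintype.card m : ℝ) * τ)
    (hK : Fintype.card κ ≤ Fintype.card m) {q : ℝ} (hq1 : 1 ≤ q)
    (hq : (Fintype.card m : ℝ) ≤ q ^ 4) :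
    ∃ a : κ → m → Bool, ∀ y : m → ℝ,
      ∑ j, (∑ i, (sgn (a j i) - P j i) * y i) ^ 2 ≤
        101 * q * ((Fintype.card m : ℝ) * τ) * ∑ i, y i ^ 2 := by
  obtain ⟨a, ha⟩ := iterate P hP hτ hN hK univ
  set N : ℝ := (Fintype.card m : ℝ) with hNdef
  have hN0 : 0 ≤ N := Nat.cast_nonneg _
  have hKR : (Fintype.card κ : ℝ) ≤ N := Nat.cast_le.2 hK
  have hτ0 : 0 ≤ τ := by
    by_contra h
    push Not at h
    nlinarith
  refine ⟨a, fun y => ?_⟩
  rw [card_univ, sub_self, zero_mul] at ha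
  set B : Matrix m m ℝ := ∑ j, Ym (P j) (a j) with hB
  have hBs : Bᵀ = B := sum_Ym_symm P a univ
  have h1 : (B ^ 4).trace ≤ (100 * q * (N * τ)) ^ 4 := by
    have h2 : Pot 0 B = (B ^ 4).trace := by unfold Pot; ring
    rw [h2] at ha
    refine ha.trans ?_
    calc (Fintype.card κ : ℝ) * (10 ^ 8 * (N * τ) ^ 4) ≤ q ^ 4 * (10 ^ 8 * (N * τ) ^ 4) := by
          apply mul_le_mul_of_nonneg_right _ (by positivity)
          exact hKR.trans hq
      _ = (100 * q * (N * τ)) ^ 4 := by ring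
  have h2 := quad_le B hBs (by positivity) h1 y
  have h3 : y ⬝ᵥ (B *ᵥ y) = ∑ j, (∑ i, (sgn (a j i) - P j i) * y i) ^ 2 -
      ∑ i, (∑ j, (1 - P j i ^ 2)) * y i ^ 2 := by
    have e1 : ∀ j, y ⬝ᵥ (Ym (P j) (a j) *ᵥ y) = (∑ i, (sgn (a j i) - P j i) * y i) ^ 2 -
        ∑ i, (1 - P j i ^ 2) * y i ^ 2 := by
      intro j
      simp only [dotProduct, Matrix.mulVec, Ym, Matrix.of_apply, ev]
      rw [sq (∑ i, _), sum_mul_sum, ← sum_sub_distrib]
      refine sum_congr rfl fun i _ => ?_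
      rw [mul_sum]
      have e2 : ∀ l, y i * (((sgn (a j i) - P j i) * (sgn (a j l) - P j l) -
          if i = l then 1 - P j i ^ 2 else 0) * y l) =
          (sgn (a j i) - P j i) * y i * ((sgn (a j l) - P j l) * y l) -
          (if i = l then (1 - P j i ^ 2) * y i * y l else 0) := by
        intro l
        split_ifs <;> ring
      rw [sum_congr rfl fun l _ => e2 l, sum_sub_distrib, sum_ite_eq, if_pos (mem_univ i)]
      ring
    rw [hB, Matrix.sum_mulVec, dotProduct_sum, sum_congr rfl fun j _ => e1 j, sum_sub_distrib]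
    congr 1
    rw [sum_comm]
    exact sum_congr rfl fun i _ => by rw [sum_mul]
  have h4 : ∑ i, (∑ j, (1 - P j i ^ 2)) * y i ^ 2 ≤ N * τ * ∑ i, y i ^ 2 := by
    rw [mul_sum]
    apply sum_le_sum
    intro i _
    apply mul_le_mul_of_nonneg_right _ (sq_nonneg _)
    calc ∑ j, (1 - P j i ^ 2) ≤ ∑ _j : κ, τ := sum_le_sum fun j _ => hτ j i
      _ = Fintype.card κ * τ := by rw [sum_const, nsmul_eq_mul, card_univ]
      _ ≤ N * τ := mul_le_mul_of_nonneg_right hKR hτ0
  have h5 : nsq y = ∑ i, y i ^ 2 := rfl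
  rw [h3, h5] at h2
  have h6 : 0 ≤ ∑ i, y i ^ 2 := sum_nonneg fun i _ => sq_nonneg _
  have h7 : N * τ * ∑ i, y i ^ 2 ≤ q * (N * τ) * ∑ i, y i ^ 2 := by
    apply mul_le_mul_of_nonneg_right _ h6
    have : 0 ≤ N * τ := by positivity
    nlinarith
  linarith

end Pool.Agent.H34AH
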