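import Mathlib
import Pool.Agent.H34AH.Flat
import Pool.Agent.H34AH.Noise2

/-!
# Orthogonal matrices close to bordered Hadamard matrices
-/

set_option autoImplicit false
set_option linter.unusedSectionVars false

namespace Pool.Agent.H34AH

open Finset Matrix

variable {ι σ : Type*} [Fintype ι] [DecidableEq ι] [Fintype σ] [DecidableEq σ]

/-- the reflection which exchanges the new coordinates and the columns of `U` -/
def refl (U : Matrix ι σ ℝ) : Matrix (ι ⊕ σ) (ι ⊕ σ) ℝ := fromBlocks (1 - U * Uᵀ) U Uᵀ 0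

lemma refl_mul {U : Matrix ι σ ℝ} (h : Uᵀ * U = 1) : (refl U)ᵀ * refl U = 1 := by
  have e1 : U * Uᵀ * (U * Uᵀ) = U * Uᵀ := by
    calc U * Uᵀ * (U * Uᵀ) = U * (Uᵀ * U) * Uᵀ := by simp only [Matrix.mul_assoc]
      _ = U * Uᵀ := by rw [h, Matrix.mul_one]
  have e2 : U * Uᵀ * U = U := by rw [Matrix.mul_assoc, h, Matrix.mul_one]
  have e3 : Uᵀ * (U * Uᵀ) = Uᵀ := by rw [← Matrix.mul_assoc, h, Matrix.one_mul]
  unfold refl
  rw [fromBlocks_transpose, fromBlocks_multiply, transpose_sub, transpose_mul, transpose_transpose,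
    transpose_one, transpose_zero, ← fromBlocks_one]
  congr 1
  · rw [Matrix.sub_mul, Matrix.mul_sub, Matrix.mul_sub, Matrix.one_mul, Matrix.one_mul, Matrix.mul_one,
      e1]
    abel
  · rw [Matrix.sub_mul, Matrix.one_mul, e2, Matrix.mul_zero]
    abel
  · rw [Matrix.mul_sub, Matrix.mul_one, e3, Matrix.zero_mul]
    abel
  · rw [h, Matrix.zero_mul, add_zero]

/-- the orthogonal matrix -/
def Gm (O : Matrix ι ι ℝ) (U V : Matrix ι σ ℝ) : Matrix (ι ⊕ σ) (ι ⊕ σ) ℝ :=
  refl V * refl U * fromBlocks O 0 0 1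

lemma Gm_orth {O : Matrix ι ι ℝ} {U V : Matrix ι σ ℝ} (hO : Oᵀ * O = 1) (hU : Uᵀ * U = 1)
    (hV : Vᵀ * V = 1) : (Gm O U V)ᵀ * Gm O U V = 1 := by
  have h1 := refl_mul hU
  have h2 := refl_mul hV
  have h3 : (fromBlocks O 0 0 1 : Matrix (ι ⊕ σ) (ι ⊕ σ) ℝ)ᵀ * fromBlocks O 0 0 1 = 1 := by
    rw [fromBlocks_transpose, fromBlocks_multiply, ← fromBlocks_one]
    congr 1
    · rw [hO]; simp
    · simp
    · simp
    · simp
  unfold Gm
  rw [transpose_mul, transpose_mul]
  calc (fromBlocks O 0 0 1)ᵀ * ((refl U)ᵀ * (refl V)ᵀ) * (refl V * refl U * fromBlocks O 0 0 1)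
      = (fromBlocks O 0 0 1)ᵀ * ((refl U)ᵀ * ((refl V)ᵀ * refl V) * refl U) * fromBlocks O 0 0 1 := by
        simp only [Matrix.mul_assoc]
    _ = 1 := by rw [h2, Matrix.mul_one, h1, Matrix.mul_one, h3]

lemma Gm_eq {O : Matrix ι ι ℝ} {U V V' W : Matrix ι σ ℝ} (hV' : Vᵀ * O = V'ᵀ) (hW : Uᵀ * O = Wᵀ) :
    Gm O U V = fromBlocks (O - V * V'ᵀ - U * Wᵀ + V * (Vᵀ * U) * Wᵀ + V * Wᵀ) (U - V * (Vᵀ * U))
      (V'ᵀ - (Vᵀ * U) * Wᵀ) (Vᵀ * U) := by
  unfold Gm refl
  rw [fromBlocks_multiply, fromBlocks_multiply]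
  congr 1
  · rw [← hV', ← hW]
    simp only [Matrix.sub_mul, Matrix.mul_sub, Matrix.one_mul, Matrix.mul_one, Matrix.mul_zero,
      Matrix.add_mul, Matrix.mul_assoc, add_zero]
    abel
  · simp only [Matrix.sub_mul, Matrix.mul_sub, Matrix.one_mul, Matrix.mul_one, Matrix.mul_zero,
      Matrix.add_mul, Matrix.mul_assoc, add_zero, zero_add]
  · rw [← hV', ← hW]
    simp only [Matrix.sub_mul, Matrix.mul_sub, Matrix.one_mul, Matrix.mul_one, Matrix.mul_zero,
      Matrix.add_mul, Matrix.mul_assoc, add_zero, Matrix.zero_mul]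
  · simp only [Matrix.mul_zero, Matrix.mul_one, zero_add, add_zero]

/-- entries of products with small entries -/
lemma entry_le {a b c : Type*} [Fintype b] {M : Matrix a b ℝ} {N : Matrix b c ℝ} {x y : ℝ}
    (hM : ∀ i j, |M i j| ≤ x) (hN : ∀ i j, |N i j| ≤ y) (i : a) (j : c) :
    |(M * N) i j| ≤ Fintype.card b * (x * y) := by
  rw [Matrix.mul_apply]
  refine (abs_sum_le_sum_abs _ _).trans ?_
  calc ∑ k, |M i k * N k j| ≤ ∑ _k : b, x * y := by
        apply sum_le_sum
        intro k _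
        rw [abs_mul]
        exact mul_le_mul (hM i k) (hN k j) (abs_nonneg _) ((abs_nonneg _).trans (hM i k))
    _ = Fintype.card b * (x * y) := by rw [sum_const, nsmul_eq_mul, card_univ]

/-- the data of a flat border of a Hadamard matrix: `r ^ 2` is the order -/
structure Flat (O : Matrix ι ι ℝ) (U V V' W : Matrix ι σ ℝ) (r L : ℝ) : Prop where
  hO : Oᵀ * O = 1
  hU : Uᵀ * U = 1
  hV : Vᵀ * V = 1
  hV' : Vᵀ * O = V'ᵀ
  hW : Uᵀ * O = Wᵀ
  bO : ∀ i j, O i j = 1 / r ∨ O i j = -(1 / r)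
  bU : ∀ i j, U i j = 1 / r ∨ U i j = -(1 / r)
  bV' : ∀ i j, V' i j = 1 / r ∨ V' i j = -(1 / r)
  bV : ∀ i j, |V i j| ≤ L / r
  bW : ∀ i j, |W i j| ≤ L / r
  bD : ∀ i j, |(Vᵀ * U) i j| ≤ L / r

lemma exists_flat_border {H : Matrix ι ι ℝ} (hs : ∀ i j, H i j = 1 ∨ H i j = -1) {r : ℝ}
    (hr : 0 < r) (hH : H * Hᵀ = (r ^ 2) • (1 : Matrix ι ι ℝ))
    (hH' : Hᵀ * H = (r ^ 2) • (1 : Matrix ι ι ℝ)) (hcard : (Fintype.card ι : ℝ) = r ^ 2)
    {f : σ → ι} (hf : Function.Injective f) {L : ℝ} (hL : 0 < L)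
    (hT : Real.log (2 * (Fintype.card (ι × σ ⊕ σ × σ) : ℝ)) ≤ L ^ 2 / 2) :
    ∃ U V V' W : Matrix ι σ ℝ, Flat ((1 / r) • H) U V V' W r L := by
  classical
  have hr2 : (0 : ℝ) < r ^ 2 := by positivity
  have hrne : r ≠ 0 := hr.ne'
  have hsq : ∀ i j, H i j ^ 2 = 1 := by
    intro i j
    rcases hs i j with h | h <;> rw [h] <;> norm_num
  have hsgn : ∀ b : Bool, sgn b = 1 ∨ sgn b = -1 := by
    intro b; cases b <;> simp [sgn]
  have hcardT : (Fintype.card (ι × σ) : ℝ) ≤ Fintype.card (ι × σ ⊕ σ × σ) := by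
    rw [Fintype.card_sum]
    push_cast
    have : (0 : ℝ) ≤ Fintype.card (σ × σ) := Nat.cast_nonneg _
    push_cast at this
    linarith
  rcases isEmpty_or_nonempty σ with hE | hE
  · refine ⟨0, 0, 0, 0, ?_, ?_, ?_, ?_, ?_, ?_, ?_, ?_, ?_, ?_, ?_⟩
    · rw [transpose_smul, smul_mul_smul_comm, hH', smul_smul]
      have : 1 / r * (1 / r) * r ^ 2 = 1 := by field_simp
      rw [this, one_smul]
    · ext i; exact (hE.false i).elim
    · ext i; exact (hE.false i).elim
    · ext i; exact (hE.false i).elim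
    · ext i; exact (hE.false i).elim
    · intro i j
      rw [Matrix.smul_apply, smul_eq_mul]
      rcases hs i j with h | h <;> rw [h]
      · left; ring
      · right; ring
    · intro i j; exact (hE.false j).elim
    · intro i j; exact (hE.false j).elim
    · intro i j; exact (hE.false j).elim
    · intro i j; exact (hE.false j).elim
    · intro i j; exact (hE.false j).elim
  obtain ⟨s0⟩ := hE
  have hM1 : (1 : ℝ) ≤ Fintype.card (ι × σ) := by
    have : 0 < Fintype.card (ι × σ) := Fintype.card_pos_iff.2 ⟨(f s0, s0)⟩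
    exact_mod_cast this
  -- the rows
  obtain ⟨b, hb⟩ := exists_flat (T := ι × σ) (m := ι) (fun t k => H t.1 k * H (f t.2) k)
    (fun _ => r) (fun _ => hr) (fun t => by
      have : ∑ k, (H t.1 k * H (f t.2) k) ^ 2 = r ^ 2 := by
        rw [← hcard, ← card_univ, card_eq_sum_ones]
        push_cast
        exact sum_congr rfl fun k _ => by rw [mul_pow, hsq, hsq]; norm_num
      exact this.le) hL ((Real.log_le_log (by positivity) (by linarith)).trans hT)
  set V' : Matrix ι σ ℝ := Matrix.of fun i j => 1 / r * (sgn (b i) * H (f j) i) with hV'def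
  set O : Matrix ι ι ℝ := (1 / r) • H with hOdef
  have hOO : Oᵀ * O = 1 := by
    rw [hOdef, transpose_smul, smul_mul_smul_comm, hH', smul_smul]
    have : 1 / r * (1 / r) * r ^ 2 = 1 := by field_simp
    rw [this, one_smul]
  have hOO' : O * Oᵀ = 1 := by
    rw [hOdef, transpose_smul, smul_mul_smul_comm, hH, smul_smul]
    have : 1 / r * (1 / r) * r ^ 2 = 1 := by field_simp
    rw [this, one_smul]
  have hrow : ∀ i j : ι, ∑ k, H i k * H j k = if i = j then r ^ 2 else 0 := by
    intro i j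
    have := congrFun (congrFun hH i) j
    rw [Matrix.mul_apply] at this
    simp only [Matrix.transpose_apply, Matrix.smul_apply, Matrix.one_apply, smul_eq_mul] at this
    rw [this]
    split_ifs <;> simp
  have hcol : ∀ i j : ι, ∑ k, H k i * H k j = if i = j then r ^ 2 else 0 := by
    intro i j
    have := congrFun (congrFun hH' i) j
    rw [Matrix.mul_apply] at this
    simp only [Matrix.transpose_apply, Matrix.smul_apply, Matrix.one_apply, smul_eq_mul] at this
    rw [this]
    split_ifs <;> simp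
  have hsg2 : ∀ b : Bool, sgn b * sgn b = 1 := by
    intro b; cases b <;> simp [sgn]
  have hV'V' : V'ᵀ * V' = 1 := by
    ext i j
    rw [Matrix.mul_apply]
    simp only [hV'def, Matrix.transpose_apply, Matrix.of_apply]
    have e : ∀ k, 1 / r * (sgn (b k) * H (f i) k) * (1 / r * (sgn (b k) * H (f j) k)) =
        1 / r ^ 2 * (H (f i) k * H (f j) k) := by
      intro k
      have := hsg2 (b k)
      calc 1 / r * (sgn (b k) * H (f i) k) * (1 / r * (sgn (b k) * H (f j) k)) =
          1 / r ^ 2 * (H (f i) k * H (f j) k) * (sgn (b k) * sgn (b k)) := by field_simp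
        _ = _ := by rw [this, mul_one]
    rw [sum_congr rfl fun k _ => e k, ← mul_sum, hrow, Matrix.one_apply]
    by_cases h : i = j
    · subst h; simp; field_simp
    · rw [if_neg (fun h' => h (hf h')), if_neg h]; simp
  set V : Matrix ι σ ℝ := O * V' with hVdef
  have hVV : Vᵀ * V = 1 := by
    rw [hVdef, transpose_mul]
    calc V'ᵀ * Oᵀ * (O * V') = V'ᵀ * (Oᵀ * O) * V' := by simp only [Matrix.mul_assoc]
      _ = 1 := by rw [hOO, Matrix.mul_one, hV'V']
  have hVO : Vᵀ * O = V'ᵀ := by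
    rw [hVdef, transpose_mul, Matrix.mul_assoc, hOO, Matrix.mul_one]
  have hVb : ∀ i j, |V i j| ≤ L / r := by
    intro i j
    have e : V i j = 1 / r ^ 2 * ∑ k, H i k * H (f j) k * sgn (b k) := by
      rw [hVdef, Matrix.mul_apply, mul_sum]
      refine sum_congr rfl fun k _ => ?_
      simp only [hOdef, hV'def, Matrix.smul_apply, Matrix.of_apply, smul_eq_mul]
      field_simp
    rw [e, abs_mul, abs_of_pos (by positivity)]
    have h1 := hb (i, j)
    simp only at h1
    calc 1 / r ^ 2 * |∑ k, H i k * H (f j) k * sgn (b k)| ≤ 1 / r ^ 2 * (L * r) :=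
          mul_le_mul_of_nonneg_left h1 (by positivity)
      _ = L / r := by field_simp
  -- the columns
  have hcolV : ∀ i : σ, ∑ k, V k i ^ 2 = 1 := by
    intro i
    have := congrFun (congrFun hVV i) i
    rw [Matrix.mul_apply, Matrix.one_apply_eq] at this
    rw [← this]
    exact sum_congr rfl fun k _ => by rw [Matrix.transpose_apply]; ring
  obtain ⟨c, hc⟩ := exists_flat (T := ι × σ ⊕ σ × σ) (m := ι)
    (fun t k => match t with
      | Sum.inl t => H k t.1 * H k (f t.2)
      | Sum.inr t => r * (V k t.1 * H k (f t.2)))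
    (fun _ => r) (fun _ => hr) (fun t => by
      rcases t with t | t
      · have : ∑ k, (H k t.1 * H k (f t.2)) ^ 2 = r ^ 2 := by
          rw [← hcard, ← card_univ, card_eq_sum_ones]
          push_cast
          exact sum_congr rfl fun k _ => by rw [mul_pow, hsq, hsq]; norm_num
        exact this.le
      · have : ∑ k, (r * (V k t.1 * H k (f t.2))) ^ 2 = r ^ 2 := by
          have e : ∀ k, (r * (V k t.1 * H k (f t.2))) ^ 2 = r ^ 2 * V k t.1 ^ 2 := by
            intro k
            rw [mul_pow, mul_pow, hsq, mul_one]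
          rw [sum_congr rfl fun k _ => e k, ← mul_sum, hcolV, mul_one]
        exact this.le) hL hT
  set U : Matrix ι σ ℝ := Matrix.of fun i j => 1 / r * (sgn (c i) * H i (f j)) with hUdef
  have hUU : Uᵀ * U = 1 := by
    ext i j
    rw [Matrix.mul_apply]
    simp only [hUdef, Matrix.transpose_apply, Matrix.of_apply]
    have e : ∀ k, 1 / r * (sgn (c k) * H k (f i)) * (1 / r * (sgn (c k) * H k (f j))) =
        1 / r ^ 2 * (H k (f i) * H k (f j)) := by
      intro k
      have := hsg2 (c k)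
      calc 1 / r * (sgn (c k) * H k (f i)) * (1 / r * (sgn (c k) * H k (f j))) =
          1 / r ^ 2 * (H k (f i) * H k (f j)) * (sgn (c k) * sgn (c k)) := by field_simp
        _ = _ := by rw [this, mul_one]
    rw [sum_congr rfl fun k _ => e k, ← mul_sum, hcol, Matrix.one_apply]
    by_cases h : i = j
    · subst h; simp; field_simp
    · rw [if_neg (fun h' => h (hf h')), if_neg h]; simp
  refine ⟨U, V, V', Oᵀ * U, hOO, hUU, hVV, hVO, ?_, ?_, ?_, ?_, hVb, ?_, ?_⟩
  · rw [transpose_mul, transpose_transpose]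
  · intro i j
    rw [hOdef, Matrix.smul_apply, smul_eq_mul]
    rcases hs i j with h | h <;> rw [h]
    · left; ring
    · right; ring
  · intro i j
    rw [hUdef, Matrix.of_apply]
    rcases hs i (f j) with h | h <;> rcases hsgn (c i) with h' | h' <;> rw [h, h']
    · left; ring
    · right; ring
    · right; ring
    · left; ring
  · intro i j
    rw [hV'def, Matrix.of_apply]
    rcases hs (f j) i with h | h <;> rcases hsgn (b i) with h' | h' <;> rw [h, h']
    · left; ring
    · right; ring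
    · right; ring
    · left; ring
  · intro i j
    have e : (Oᵀ * U) i j = 1 / r ^ 2 * ∑ k, H k i * H k (f j) * sgn (c k) := by
      rw [Matrix.mul_apply, mul_sum]
      refine sum_congr rfl fun k _ => ?_
      simp only [hOdef, hUdef, Matrix.smul_apply, Matrix.of_apply, smul_eq_mul,
        Matrix.transpose_apply]
      field_simp
    rw [e, abs_mul, abs_of_pos (by positivity)]
    have h1 := hc (Sum.inl (i, j))
    simp only at h1
    calc 1 / r ^ 2 * |∑ k, H k i * H k (f j) * sgn (c k)| ≤ 1 / r ^ 2 * (L * r) :=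
          mul_le_mul_of_nonneg_left h1 (by positivity)
      _ = L / r := by field_simp
  · intro i j
    have e : (Vᵀ * U) i j = 1 / r ^ 2 * ∑ k, r * (V k i * H k (f j)) * sgn (c k) := by
      rw [Matrix.mul_apply, mul_sum]
      refine sum_congr rfl fun k _ => ?_
      simp only [hUdef, Matrix.of_apply, Matrix.transpose_apply]
      field_simp
    rw [e, abs_mul, abs_of_pos (by positivity)]
    have h1 := hc (Sum.inr (i, j))
    simp only at h1
    calc 1 / r ^ 2 * |∑ k, r * (V k i * H k (f j)) * sgn (c k)| ≤ 1 / r ^ 2 * (L * r) :=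
          mul_le_mul_of_nonneg_left h1 (by positivity)
      _ = L / r := by field_simp

end Pool.Agent.H34AH
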