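import Mathlib
import Pool.Agent.H34AH.Border

/-!
# Sign matrices close to multiples of orthogonal matrices
-/

set_option autoImplicit false
set_option linter.unusedSectionVars false
set_option linter.unusedSimpArgs false

namespace Pool.Agent.H34AH

open Finset Matrix

lemma nsq_add {a : Type*} [Fintype a] (u v : a → ℝ) :
    nsq (u + v) = nsq u + 2 * (u ⬝ᵥ v) + nsq v := by
  simp only [nsq, dotProduct, Pi.add_apply]
  rw [mul_sum, ← sum_add_distrib, ← sum_add_distrib]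
  exact sum_congr rfl fun i _ => by ring

lemma tri_upper {a : Type*} [Fintype a] {u v : a → ℝ} {x y t : ℝ} (hx : 0 ≤ x) (hy : 0 ≤ y)
    (ht : 0 ≤ t) (hu : nsq u ≤ x ^ 2 * t) (hv : nsq v ≤ y ^ 2 * t) :
    nsq (u + v) ≤ (x + y) ^ 2 * t := by
  rw [nsq_add]
  have h1 : (u ⬝ᵥ v) ^ 2 ≤ (x * y * t) ^ 2 := by
    calc (u ⬝ᵥ v) ^ 2 ≤ nsq u * nsq v := dot_sq_le u v
      _ ≤ (x ^ 2 * t) * (y ^ 2 * t) := mul_le_mul hu hv (nsq_nonneg v) (by positivity)
      _ = (x * y * t) ^ 2 := by ring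
  have h2 : u ⬝ᵥ v ≤ x * y * t := le_of_sq_le_sq h1 (by positivity)
  nlinarith

lemma tri_lower {a : Type*} [Fintype a] {u v : a → ℝ} {x y t : ℝ} (hy : 0 ≤ y) (hxy : y ≤ x)
    (ht : 0 ≤ t) (hu : x ^ 2 * t ≤ nsq u) (hv : nsq v ≤ y ^ 2 * t) :
    (x - y) ^ 2 * t ≤ nsq (u + v) := by
  obtain ⟨p, hp0, hp⟩ : ∃ p : ℝ, 0 ≤ p ∧ nsq u = p ^ 2 :=
    ⟨Real.sqrt (nsq u), Real.sqrt_nonneg _, (Real.sq_sqrt (nsq_nonneg u)).symm⟩
  obtain ⟨q, hq0, hq⟩ : ∃ p : ℝ, 0 ≤ p ∧ nsq v = p ^ 2 :=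
    ⟨Real.sqrt (nsq v), Real.sqrt_nonneg _, (Real.sq_sqrt (nsq_nonneg v)).symm⟩
  obtain ⟨w, hw0, rfl⟩ : ∃ p : ℝ, 0 ≤ p ∧ t = p ^ 2 :=
    ⟨Real.sqrt t, Real.sqrt_nonneg _, (Real.sq_sqrt ht).symm⟩
  have h1 : (u ⬝ᵥ v) ^ 2 ≤ (p * q) ^ 2 := by
    have := dot_sq_le u v
    rw [hp, hq] at this
    rwa [mul_pow]
  have h2 : |u ⬝ᵥ v| ≤ p * q := abs_le_of_sq_le_sq h1 (by positivity)
  have h3 := (abs_le.1 h2).1
  have h4 : x * w ≤ p := by
    have : (x * w) ^ 2 ≤ p ^ 2 := by rw [mul_pow, ← hp]; exact hu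
    exact le_of_sq_le_sq this hp0
  have h5 : q ≤ y * w := by
    have : q ^ 2 ≤ (y * w) ^ 2 := by rw [mul_pow, ← hq]; exact hv
    exact le_of_sq_le_sq this (by positivity)
  have h6 : 0 ≤ (x - y) * w := mul_nonneg (by linarith) hw0
  have h7 : (x - y) * w ≤ p - q := by nlinarith
  have h8 : ((x - y) * w) ^ 2 ≤ (p - q) ^ 2 := pow_le_pow_left₀ h6 h7 2
  rw [nsq_add, hp, hq]
  nlinarith

/-- scaling a number which is nearly a sign -/
lemma near_sign {x e η : ℝ} (he : e = 1 ∨ e = -1) (hη0 : 0 ≤ η) (hη1 : η ≤ 1)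
    (hx : |x - e| ≤ η) : |(1 - η) * x| ≤ 1 ∧ 1 - ((1 - η) * x) ^ 2 ≤ 4 * η := by
  have h1 := abs_le.1 hx
  have key : ∀ y : ℝ, 1 - η ≤ y → y ≤ 1 + η → |(1 - η) * y| ≤ 1 ∧ 1 - ((1 - η) * y) ^ 2 ≤ 4 * η := by
    intro y h2 h3
    have h4 : 0 ≤ y := by linarith
    have h5 : 0 ≤ 1 - η := by linarith
    have h6 : (1 - η) * (1 - η) ≤ (1 - η) * y := mul_le_mul_of_nonneg_left h2 h5
    have h7 : (1 - η) * y ≤ (1 - η) * (1 + η) := mul_le_mul_of_nonneg_left h3 h5
    constructor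
    · rw [abs_of_nonneg (mul_nonneg h5 h4)]
      nlinarith
    · have h8 : ((1 - η) * (1 - η)) ^ 2 ≤ ((1 - η) * y) ^ 2 :=
        pow_le_pow_left₀ (mul_nonneg h5 h5) h6 2
      have h9 : 1 - 4 * η ≤ ((1 - η) * (1 - η)) ^ 2 := by
        nlinarith [mul_nonneg hη0 hη0, mul_nonneg (mul_nonneg hη0 hη0) h5,
          mul_nonneg (mul_nonneg (mul_nonneg hη0 hη0) hη0) hη0]
      linarith
  rcases he with rfl | rfl
  · exact key x (by linarith) (by linarith)
  · have := key (-x) (by linarith) (by linarith)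
    rw [mul_neg, abs_neg, neg_sq] at this
    exact this

variable {ι σ : Type*} [Fintype ι] [DecidableEq ι] [Fintype σ] [DecidableEq σ]

/-- the sum of three vectors -/
lemma tri3 {a : Type*} [Fintype a] {u v w : a → ℝ} {x y z t : ℝ} (hx : 0 ≤ x) (hy : 0 ≤ y)
    (hz : 0 ≤ z) (hxyz : y + z ≤ x) (ht : 0 ≤ t) (hu : nsq u = x ^ 2 * t) (hv : nsq v ≤ y ^ 2 * t)
    (hw : nsq w ≤ z ^ 2 * t) : (x - (y + z)) ^ 2 * t ≤ nsq (u + (v + w)) ∧
      nsq (u + (v + w)) ≤ (x + (y + z)) ^ 2 * t := by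
  have h1 := tri_upper hy hz ht hv hw
  exact ⟨tri_lower (by positivity) hxyz ht hu.ge h1, tri_upper hx (by positivity) ht hu.le h1⟩

theorem exists_near {O : Matrix ι ι ℝ} {U V V' W : Matrix ι σ ℝ} {r L : ℝ}
    (hF : Flat O U V V' W r L) (hr : 1 ≤ r) (hL : 1 ≤ L) (hcard : (Fintype.card ι : ℝ) = r ^ 2)
    {s η : ℝ} (hs : (Fintype.card σ : ℝ) = s) (hs1 : 1 ≤ s) (hη : η = 4 * s * L ^ 2 / r)
    (hη1 : η ≤ 1) {q : ℝ} (hq1 : 1 ≤ q) (hq : (Fintype.card (ι ⊕ σ) : ℝ) ≤ q ^ 4)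
    {K : ℝ} (hK0 : 0 ≤ K) (hK : 101 * q * ((Fintype.card (ι ⊕ σ) : ℝ) * (4 * η)) ≤ K ^ 2)
    (hbig : s * (1 + L) + K ≤ (1 - η) * r) :
    ∃ A : Matrix (ι ⊕ σ) (ι ⊕ σ) ℝ, (∀ i j, A i j = 1 ∨ A i j = -1) ∧
      ∀ y : ι ⊕ σ → ℝ, ((1 - η) * r - (s * (1 + L) + K)) ^ 2 * nsq y ≤ nsq (A *ᵥ y) ∧
        nsq (A *ᵥ y) ≤ ((1 - η) * r + (s * (1 + L) + K)) ^ 2 * nsq y := by
  have hr0 : 0 < r := by linarith
  have hrne := hr0.ne'
  have hL0 : 0 < L := by linarith
  have hs0 : 0 < s := by linarith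
  have hη0 : 0 ≤ η := by rw [hη]; positivity
  have hη1' : 4 * s * L ^ 2 ≤ r := by
    rw [hη, div_le_one hr0] at hη1
    exact hη1
  set G := Gm O U V with hG
  have hGe := Gm_eq (O := O) (U := U) (V := V) (V' := V') (W := W) hF.hV' hF.hW
  rw [← hG] at hGe
  have hGG : Gᵀ * G = 1 := Gm_orth hF.hO hF.hU hF.hV
  -- entries
  have aV' : ∀ i j, |V' i j| ≤ 1 / r := by
    intro i j
    rcases hF.bV' i j with h | h <;> rw [h]
    · rw [abs_of_nonneg (by positivity)]
    · rw [abs_neg, abs_of_nonneg (by positivity)]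
  have aU : ∀ i j, |U i j| ≤ 1 / r := by
    intro i j
    rcases hF.bU i j with h | h <;> rw [h]
    · rw [abs_of_nonneg (by positivity)]
    · rw [abs_neg, abs_of_nonneg (by positivity)]
  have e1 : ∀ i j, |(V * V'ᵀ) i j| ≤ s * (L / r * (1 / r)) := by
    intro i j
    have := entry_le (M := V) (N := V'ᵀ) hF.bV (fun i j => aV' j i) i j
    rwa [hs] at this
  have e2 : ∀ i j, |(U * Wᵀ) i j| ≤ s * (1 / r * (L / r)) := by
    intro i j
    have := entry_le (M := U) (N := Wᵀ) aU (fun i j => hF.bW j i) i j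
    rwa [hs] at this
  have e3 : ∀ i j, |(V * Wᵀ) i j| ≤ s * (L / r * (L / r)) := by
    intro i j
    have := entry_le (M := V) (N := Wᵀ) hF.bV (fun i j => hF.bW j i) i j
    rwa [hs] at this
  have e4 : ∀ i j, |(V * (Vᵀ * U)) i j| ≤ s * (L / r * (L / r)) := by
    intro i j
    have := entry_le (M := V) (N := Vᵀ * U) hF.bV hF.bD i j
    rwa [hs] at this
  have e5 : ∀ i j, |(V * (Vᵀ * U) * Wᵀ) i j| ≤ s * (s * (L / r * (L / r)) * (L / r)) := by
    intro i j
    have := entry_le (M := V * (Vᵀ * U)) (N := Wᵀ) e4 (fun i j => hF.bW j i) i j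
    rwa [hs] at this
  have e6 : ∀ i j, |((Vᵀ * U) * Wᵀ) i j| ≤ s * (L / r * (L / r)) := by
    intro i j
    have := entry_le (M := Vᵀ * U) (N := Wᵀ) hF.bD (fun i j => hF.bW j i) i j
    rwa [hs] at this
  have hLL : L ≤ L ^ 2 := by nlinarith
  have hsL : s * L ≤ r := by nlinarith [mul_pos hs0 hL0]
  -- nearly signs
  have n11 : ∀ i j, ∃ e : ℝ, (e = 1 ∨ e = -1) ∧ |r * G (Sum.inl i) (Sum.inl j) - e| ≤ η := by
    intro i j
    refine ⟨r * O i j, ?_, ?_⟩
    · rcases hF.bO i j with h | h <;> rw [h]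
      · left; field_simp
      · right; field_simp
    · rw [hGe, fromBlocks_apply₁₁]
      simp only [Matrix.add_apply, Matrix.sub_apply]
      have h1 := abs_le.1 (e1 i j)
      have h2 := abs_le.1 (e2 i j)
      have h3 := abs_le.1 (e3 i j)
      have h5 := abs_le.1 (e5 i j)
      have hb : r * (s * (L / r * (1 / r)) + s * (1 / r * (L / r)) + s * (L / r * (L / r)) +
          s * (s * (L / r * (L / r)) * (L / r))) ≤ η := by
        have g1 : r * (s * (L / r * (1 / r)) + s * (1 / r * (L / r)) + s * (L / r * (L / r)) +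
          s * (s * (L / r * (L / r)) * (L / r))) = (2 * (s * L) + s * L ^ 2 + s * L ^ 2 * (s * L / r)) / r := by
          field_simp
          ring
        rw [g1, hη]
        apply div_le_div_of_nonneg_right _ hr0.le
        have g2 : s * L / r ≤ 1 := by rw [div_le_one hr0]; exact hsL
        have g3 : s * L ^ 2 * (s * L / r) ≤ s * L ^ 2 * 1 :=
          mul_le_mul_of_nonneg_left g2 (by positivity)
        nlinarith [mul_le_mul_of_nonneg_left hLL hs0.le]
      rw [abs_le]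
      constructor
      · nlinarith [mul_le_mul_of_nonneg_left h1.2 hr0.le, mul_le_mul_of_nonneg_left h2.2 hr0.le,
          mul_le_mul_of_nonneg_left h3.1 hr0.le, mul_le_mul_of_nonneg_left h5.1 hr0.le]
      · nlinarith [mul_le_mul_of_nonneg_left h1.1 hr0.le, mul_le_mul_of_nonneg_left h2.1 hr0.le,
          mul_le_mul_of_nonneg_left h3.2 hr0.le, mul_le_mul_of_nonneg_left h5.2 hr0.le]
  have hb2 : r * (s * (L / r * (L / r))) ≤ η := by
    have g1 : r * (s * (L / r * (L / r))) = s * L ^ 2 / r := by field_simp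
    rw [g1, hη]
    apply div_le_div_of_nonneg_right _ hr0.le
    nlinarith [mul_pos hs0 (pow_pos hL0 2)]
  have n12 : ∀ i j, ∃ e : ℝ, (e = 1 ∨ e = -1) ∧ |r * G (Sum.inl i) (Sum.inr j) - e| ≤ η := by
    intro i j
    refine ⟨r * U i j, ?_, ?_⟩
    · rcases hF.bU i j with h | h <;> rw [h]
      · left; field_simp
      · right; field_simp
    · rw [hGe, fromBlocks_apply₁₂]
      simp only [Matrix.add_apply, Matrix.sub_apply]
      have h1 := e4 i j
      have g1 : r * (U i j - (V * (Vᵀ * U)) i j) - r * U i j = -(r * (V * (Vᵀ * U)) i j) := by ring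
      rw [g1, abs_neg, abs_mul, abs_of_pos hr0]
      exact (mul_le_mul_of_nonneg_left h1 hr0.le).trans hb2
  have n21 : ∀ i j, ∃ e : ℝ, (e = 1 ∨ e = -1) ∧ |r * G (Sum.inr i) (Sum.inl j) - e| ≤ η := by
    intro i j
    refine ⟨r * V' j i, ?_, ?_⟩
    · rcases hF.bV' j i with h | h <;> rw [h]
      · left; field_simp
      · right; field_simp
    · rw [hGe, fromBlocks_apply₂₁]
      simp only [Matrix.add_apply, Matrix.sub_apply, Matrix.transpose_apply]
      have h1 := e6 i j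
      have g1 : r * (V' j i - ((Vᵀ * U) * Wᵀ) i j) - r * V' j i = -(r * ((Vᵀ * U) * Wᵀ) i j) := by
        ring
      rw [g1, abs_neg, abs_mul, abs_of_pos hr0]
      exact (mul_le_mul_of_nonneg_left h1 hr0.le).trans hb2
  -- the means
  set T : Matrix (ι ⊕ σ) (ι ⊕ σ) ℝ := ((1 - η) * r) • G with hT
  set F : Matrix (ι ⊕ σ) (ι ⊕ σ) ℝ := Matrix.of fun i j =>
    match i, j with
    | Sum.inr i, Sum.inr j => 1 - T (Sum.inr i) (Sum.inr j)
    | _, _ => 0 with hFdef
  have hPn : ∀ i j, |(T + F) i j| ≤ 1 ∧ 1 - (T + F) i j ^ 2 ≤ 4 * η := by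
    intro i j
    have hT1 : ∀ i j, T i j = (1 - η) * (r * G i j) := by
      intro i j
      rw [hT, Matrix.smul_apply, smul_eq_mul, mul_assoc]
    rcases i with i | i <;> rcases j with j | j
    · obtain ⟨e, he, hx⟩ := n11 i j
      have h1 : (T + F) (Sum.inl i) (Sum.inl j) = (1 - η) * (r * G (Sum.inl i) (Sum.inl j)) := by
        rw [Matrix.add_apply, hT1]; simp [hFdef]
      rw [h1]
      exact near_sign he hη0 hη1 hx
    · obtain ⟨e, he, hx⟩ := n12 i j
      have h1 : (T + F) (Sum.inl i) (Sum.inr j) = (1 - η) * (r * G (Sum.inl i) (Sum.inr j)) := by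
        rw [Matrix.add_apply, hT1]; simp [hFdef]
      rw [h1]
      exact near_sign he hη0 hη1 hx
    · obtain ⟨e, he, hx⟩ := n21 i j
      have h1 : (T + F) (Sum.inr i) (Sum.inl j) = (1 - η) * (r * G (Sum.inr i) (Sum.inl j)) := by
        rw [Matrix.add_apply, hT1]; simp [hFdef]
      rw [h1]
      exact near_sign he hη0 hη1 hx
    · have h1 : (T + F) (Sum.inr i) (Sum.inr j) = 1 := by
        rw [Matrix.add_apply]; simp [hFdef]
      rw [h1]
      constructor
      · simp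
      · linarith
  -- rounding
  have hn0 : r ^ 2 ≤ (Fintype.card (ι ⊕ σ) : ℝ) := by
    rw [Fintype.card_sum]
    push_cast
    rw [hcard, hs]
    linarith
  have hN4 : 4 ≤ (Fintype.card (ι ⊕ σ) : ℝ) * (4 * η) := by
    have h1 : r ^ 2 * (4 * η) ≤ (Fintype.card (ι ⊕ σ) : ℝ) * (4 * η) :=
      mul_le_mul_of_nonneg_right hn0 (by positivity)
    have h2 : r ^ 2 * (4 * η) = 16 * (s * L ^ 2 * r) := by
      rw [hη]; field_simp; ring
    have h3 : 1 ≤ s * L ^ 2 := by nlinarith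
    have h4 : 1 ≤ s * L ^ 2 * r := by nlinarith
    linarith
  obtain ⟨a, ha⟩ := exists_round (fun j i => (T + F) j i) (fun j i => (hPn j i).1)
    (fun j i => (hPn j i).2) hN4 le_rfl hq1 hq
  set A : Matrix (ι ⊕ σ) (ι ⊕ σ) ℝ := Matrix.of fun i j => sgn (a i j) with hA
  refine ⟨A, ?_, fun y => ?_⟩
  · intro i j
    simp only [hA, Matrix.of_apply, sgn]
    split_ifs
    · left; rfl
    · right; rfl
  · have h1 : A *ᵥ y = T *ᵥ y + (F *ᵥ y + (A - (T + F)) *ᵥ y) := by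
      rw [← Matrix.add_mulVec, ← Matrix.add_mulVec]
      congr 1
      abel
    have h2 : nsq (T *ᵥ y) = ((1 - η) * r) ^ 2 * nsq y := by
      have g1 : nsq (G *ᵥ y) = nsq y := by
        rw [← dot_self, Matrix.dotProduct_mulVec, ← Matrix.mulVec_transpose, Matrix.mulVec_mulVec,
          hGG, Matrix.one_mulVec, dot_self]
      rw [hT, Matrix.smul_mulVec]
      rw [← g1]
      simp only [nsq, Pi.smul_apply, smul_eq_mul]
      rw [mul_sum]
      exact sum_congr rfl fun i _ => by ring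
    have h3 : nsq (F *ᵥ y) ≤ (s * (1 + L)) ^ 2 * nsq y := by
      refine (nsq_mulVec_le F y).trans ?_
      apply mul_le_mul_of_nonneg_right _ (nsq_nonneg y)
      have g1 : ∀ i j, F (Sum.inr i) (Sum.inr j) ^ 2 ≤ (1 + L) ^ 2 := by
        intro i j
        have g2 : F (Sum.inr i) (Sum.inr j) = 1 - (1 - η) * (r * (Vᵀ * U) i j) := by
          simp only [hFdef, Matrix.of_apply]
          rw [hT, Matrix.smul_apply, smul_eq_mul, hGe, fromBlocks_apply₂₂, mul_assoc]
        rw [g2]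
        have g3 : |r * (Vᵀ * U) i j| ≤ L := by
          rw [abs_mul, abs_of_pos hr0]
          calc r * |(Vᵀ * U) i j| ≤ r * (L / r) := mul_le_mul_of_nonneg_left (hF.bD i j) hr0.le
            _ = L := by field_simp
        have g4 : |(1 - η) * (r * (Vᵀ * U) i j)| ≤ L := by
          rw [abs_mul, abs_of_nonneg (by linarith)]
          calc (1 - η) * |r * (Vᵀ * U) i j| ≤ 1 * L :=
                mul_le_mul (by linarith) g3 (abs_nonneg _) (by norm_num)
            _ = L := one_mul _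
        have g5 := abs_le.1 g4
        apply sq_le_sq'
        · linarith
        · linarith
      unfold fro
      rw [Fintype.sum_sum_type]
      have g6 : ∑ i : ι, ∑ j, F (Sum.inl i) j ^ 2 = 0 := by
        apply sum_eq_zero
        intro i _
        apply sum_eq_zero
        intro j _
        rcases j with j | j <;> simp [hFdef]
      have g7 : ∀ i : σ, ∑ j, F (Sum.inr i) j ^ 2 ≤ s * (1 + L) ^ 2 := by
        intro i
        rw [Fintype.sum_sum_type]
        have g8 : ∑ j : ι, F (Sum.inr i) (Sum.inl j) ^ 2 = 0 := by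
          apply sum_eq_zero
          intro j _
          simp [hFdef]
        rw [g8, zero_add]
        refine (sum_le_sum fun j _ => g1 i j).trans ?_
        rw [sum_const, nsmul_eq_mul, card_univ, hs]
      rw [g6, zero_add]
      refine (sum_le_sum fun i _ => g7 i).trans ?_
      rw [sum_const, nsmul_eq_mul, card_univ, hs]
      exact le_of_eq (by ring)
    have h4 : nsq ((A - (T + F)) *ᵥ y) ≤ K ^ 2 * nsq y := by
      have g1 := ha y
      have g2 : nsq ((A - (T + F)) *ᵥ y) = ∑ j, (∑ i, (sgn (a j i) - (T + F) j i) * y i) ^ 2 := by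
        simp only [nsq, Matrix.mulVec, dotProduct, Matrix.sub_apply, hA, Matrix.of_apply]
      rw [g2]
      refine g1.trans ?_
      exact mul_le_mul_of_nonneg_right hK (nsq_nonneg y)
    rw [h1]
    exact tri3 (mul_nonneg (by linarith) hr0.le) (by positivity) hK0 hbig (nsq_nonneg y) h2 h3 h4

end Pool.Agent.H34AH
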