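import Mathlib
import Pool.Agent.H34AH.Main
import Pool.Agent.W69.MD.Iter

/-!
# Approximate Hadamard matrices in every dimension
-/

set_option autoImplicit false
set_option linter.unusedSectionVars false
set_option linter.unusedSimpArgs false

namespace Pool.Agent.H34AH

open Finset Matrix Pool.Agent.W851.Had Pool.Agent.W69.MD

/-- a Hadamard order slightly below every large number -/
theorem exists_had_below : ∃ N₀ : ℕ, ∀ n : ℕ, N₀ ≤ n → ∃ N s : ℕ, N + s = n ∧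
    Pool.Agent.H108R3.Had.HasHad N ∧ (s : ℝ) ≤ Real.log n := by
  obtain ⟨C, hC, h⟩ := main_had
  obtain ⟨a₀, ha₀⟩ := exp_le_tow C 4 hC
  refine ⟨tow (a₀ + 2) + 1, fun n hn => ?_⟩
  have hex : ∃ k, n ≤ tow k := ⟨n, (lt_tow n).le⟩
  obtain ⟨k, hk1, hk2⟩ : ∃ k, n ≤ tow k ∧ ∀ i < k, tow i < n :=
    ⟨Nat.find hex, Nat.find_spec hex, fun i hi => not_le.1 (Nat.find_min hex hi)⟩
  have hka : a₀ + 2 < k := by
    by_contra hcon
    push Not at hcon
    have := hk1.trans (tow_mono hcon)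
    omega
  obtain ⟨a, ha⟩ : ∃ a, k = a + 3 := ⟨k - 3, by omega⟩
  have haa : a₀ ≤ a := by omega
  have h1 : (tow (a + 2) : ℝ) ≤ n := by
    exact_mod_cast (hk2 (a + 2) (by omega)).le
  have h2 := log_tow a n h1
  have h3 := ha₀ a haa
  have ek : a + 4 = k + 1 := by omega
  rw [ek] at h3
  set t := C ^ (k + 1) with ht
  have h4 : (2 : ℝ) ^ t ≤ Real.log n := by
    have h5 := Real.add_one_le_exp (2 * (2 : ℝ) ^ t)
    have h6 : (0 : ℝ) < 2 ^ t := by positivity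
    linarith
  have h2t : 0 < 2 ^ t := by positivity
  refine ⟨2 ^ t * (n / 2 ^ t), n % 2 ^ t, Nat.div_add_mod n (2 ^ t), ?_, ?_⟩
  · exact h k (n / 2 ^ t) t ((Nat.div_le_self _ _).trans hk1) le_rfl
  · refine le_trans ?_ h4
    exact_mod_cast (Nat.mod_lt n h2t).le

/-- the conclusion for one order -/
def Near (n : ℕ) (e : ℝ) : Prop := ∃ A : Matrix (Fin n) (Fin n) ℝ, (∀ i j, A i j = 1 ∨ A i j = -1) ∧
  ∀ x : Fin n → ℝ, |nsq (A *ᵥ x) - n * nsq x| ≤ e * nsq x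

lemma cast_had {N : ℕ} (hN : 0 < N) (h : Pool.Agent.H108R3.Had.HasHad N) :
    ∃ H : Matrix (Fin N) (Fin N) ℝ, (∀ i j, H i j = 1 ∨ H i j = -1) ∧
      H * Hᵀ = (N : ℝ) • (1 : Matrix (Fin N) (Fin N) ℝ) ∧
      Hᵀ * H = (N : ℝ) • (1 : Matrix (Fin N) (Fin N) ℝ) := by
  obtain ⟨H, hH, hHH⟩ := h
  refine ⟨H.map (fun x => (x : ℝ)), ?_, ?_⟩
  · intro i j
    rw [Matrix.map_apply]
    rcases hH i j with h | h <;> rw [h]
    · left; norm_num
    · right; norm_num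
  · have h1 : H.map (fun x => (x : ℝ)) * (H.map (fun x => (x : ℝ)))ᵀ =
        (N : ℝ) • (1 : Matrix (Fin N) (Fin N) ℝ) := by
      ext i j
      have h2 := congrFun (congrFun hHH i) j
      rw [Matrix.mul_apply] at h2 ⊢
      simp only [Matrix.transpose_apply, Matrix.map_apply, Matrix.smul_apply, Matrix.one_apply] at h2 ⊢
      have h3 := congrArg (fun z : ℤ => (z : ℝ)) h2
      push_cast at h3
      rw [h3]
      split_ifs <;> simp
    refine ⟨h1, ?_⟩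
    have hN0 : (N : ℝ) ≠ 0 := by exact_mod_cast hN.ne'
    have h2 : H.map (fun x => (x : ℝ)) * ((N : ℝ)⁻¹ • (H.map (fun x => (x : ℝ)))ᵀ) = 1 := by
      rw [Matrix.mul_smul, h1, smul_smul, inv_mul_cancel₀ hN0, one_smul]
    have h3 := mul_eq_one_comm.1 h2
    rw [Matrix.smul_mul] at h3
    have h4 := congrArg (fun M => (N : ℝ) • M) h3
    rwa [smul_smul, mul_inv_cancel₀ hN0, one_smul] at h4

lemma nsq_reindex {a b : Type*} [Fintype a] [Fintype b] (e : a ≃ b) (A : Matrix a a ℝ) (x : b → ℝ) :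
    nsq ((A.submatrix e.symm e.symm) *ᵥ x) = nsq (A *ᵥ (x ∘ e)) ∧ nsq (x ∘ e) = nsq x := by
  constructor
  · unfold nsq
    rw [← Equiv.sum_comp e]
    refine sum_congr rfl fun i _ => ?_
    congr 1
    simp only [Matrix.mulVec, dotProduct, Matrix.submatrix_apply, Equiv.symm_apply_apply,
      Function.comp_apply]
    rw [← Equiv.sum_comp e]
    simp
  · unfold nsq
    rw [← Equiv.sum_comp e]
    rfl

theorem near_of {N s : ℕ} (h : Pool.Agent.H108R3.Had.HasHad N) (hs1 : 1 ≤ s) {z l : ℝ}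
    (hz : ((N + s : ℕ) : ℝ) = z ^ 8) (hz0 : 0 < z) (hl : Real.log ((N + s : ℕ) : ℝ) = l)
    (hsl : (s : ℝ) ≤ l) (hl1 : 1000 ≤ l) (hzl : 10 ^ 6 * l ≤ z) : Near (N + s) (z ^ 7 * l ^ 2) := by
  have hs1' : (1 : ℝ) ≤ s := by exact_mod_cast hs1
  have hl0 : 0 < l := by linarith
  have hz1 : 1 ≤ z := by linarith
  have hz9 : 10 ^ 9 ≤ z := by linarith
  -- the order of the Hadamard matrix
  have hNz : (N : ℝ) = z ^ 8 - s := by push_cast at hz; linarith
  have hsz : (s : ℝ) ≤ z := by nlinarith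
  have hz8 : 10 ^ 6 * z ≤ z ^ 8 := by
    have h1 : 10 ^ 6 * z ≤ z * z := by nlinarith
    have h2 : z * z * 1 ≤ z * z * z ^ 6 := mul_le_mul_of_nonneg_left (one_le_pow₀ hz1) (by positivity)
    have h3 : z * z * z ^ 6 = z ^ 8 := by ring
    linarith
  have hN4 : z ^ 8 / 4 ≤ N := by rw [hNz]; linarith
  have hN0' : (0 : ℝ) < N := by
    have : 0 < z ^ 8 := by positivity
    linarith
  have hN0 : 0 < N := by exact_mod_cast hN0'
  obtain ⟨H, hHs, hHH, hHH'⟩ := cast_had hN0 h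
  set r : ℝ := Real.sqrt N with hr
  have hr2 : r ^ 2 = N := Real.sq_sqrt hN0'.le
  have hr0 : 0 < r := Real.sqrt_pos.2 hN0'
  have hrlo : z ^ 4 / 2 ≤ r := by
    apply Real.le_sqrt_of_sq_le
    have e : (z ^ 4 / 2) ^ 2 = z ^ 8 / 4 := by ring
    rw [e]
    exact hN4
  have hrhi : r ≤ z ^ 4 := by
    rw [hr]
    apply Real.sqrt_le_iff.2
    refine ⟨by positivity, ?_⟩
    rw [hNz]
    have : (z ^ 4) ^ 2 = z ^ 8 := by ring
    linarith
  have hrgap : z ^ 4 - r ≤ s := by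
    have h1 : (z ^ 4 - r) * (z ^ 4 + r) = s := by
      have : (z ^ 4 - r) * (z ^ 4 + r) = z ^ 8 - r ^ 2 := by ring
      rw [this, hr2, hNz]; ring
    have h2 : 1 ≤ z ^ 4 + r := by
      have := one_le_pow₀ hz1 (n := 4)
      linarith
    have h3 : 0 ≤ z ^ 4 - r := by linarith
    nlinarith
  have hz3 : 10 ^ 6 * l * z ^ 3 ≤ z ^ 4 := by
    calc 10 ^ 6 * l * z ^ 3 ≤ z * z ^ 3 := mul_le_mul_of_nonneg_right hzl (by positivity)
      _ = z ^ 4 := by ring
  have hz3' : 1 ≤ z ^ 3 := one_le_pow₀ hz1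
  have hl2 : l ^ 2 ≤ z ^ 3 * l / 10 ^ 6 := by
    have h1 : l ≤ z / 10 ^ 6 := by linarith
    have h2 : z ≤ z ^ 3 := by
      calc z = z * 1 := (mul_one z).symm
        _ ≤ z * z ^ 2 := mul_le_mul_of_nonneg_left (one_le_pow₀ hz1) hz0.le
        _ = z ^ 3 := by ring
    have h3 : l ≤ z ^ 3 / 10 ^ 6 := h1.trans (by linarith)
    calc l ^ 2 = l * l := sq l
      _ ≤ (z ^ 3 / 10 ^ 6) * l := mul_le_mul_of_nonneg_right h3 hl0.le
      _ = z ^ 3 * l / 10 ^ 6 := by ring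
  have hrbig : 1 ≤ r := by
    have := one_le_pow₀ hz1 (n := 4)
    nlinarith
  -- the parameter `L`
  set L : ℝ := 2 * Real.sqrt l with hL
  have hL2 : L ^ 2 = 4 * l := by
    rw [hL, mul_pow, Real.sq_sqrt hl0.le]; norm_num
  have hsq1 : 1 ≤ Real.sqrt l := by
    rw [Real.one_le_sqrt]; linarith
  have hsql : Real.sqrt l ≤ l := by
    have := Real.sq_sqrt hl0.le
    nlinarith
  have hL1 : 1 ≤ L := by rw [hL]; linarith
  have hLl : 1 + L ≤ 3 * l := by rw [hL]; linarith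
  have hcardN : (Fintype.card (Fin N) : ℝ) = r ^ 2 := by rw [Fintype.card_fin, hr2]
  have hsN : s ≤ N := by
    have : (s : ℝ) ≤ N := by
      rw [hNz]; linarith
    exact_mod_cast this
  have hTc : Real.log (2 * (Fintype.card (Fin N × Fin s ⊕ Fin s × Fin s) : ℝ)) ≤ L ^ 2 / 2 := by
    have e : (Fintype.card (Fin N × Fin s ⊕ Fin s × Fin s) : ℝ) = s * ((N + s : ℕ) : ℝ) := by
      rw [Fintype.card_sum, Fintype.card_prod, Fintype.card_prod, Fintype.card_fin, Fintype.card_fin]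
      push_cast; ring
    rw [e, hL2]
    have h1 : 2 * (s * ((N + s : ℕ) : ℝ)) ≤ ((N + s : ℕ) : ℝ) ^ 2 := by
      have h2 : (2 : ℝ) * s ≤ ((N + s : ℕ) : ℝ) := by
        have : 2 * s ≤ N + s := by omega
        exact_mod_cast this
      have h3 : (0 : ℝ) ≤ ((N + s : ℕ) : ℝ) := Nat.cast_nonneg _
      nlinarith
    have h4 : (0 : ℝ) < 2 * (s * ((N + s : ℕ) : ℝ)) := by
      rw [hz]; positivity
    calc Real.log (2 * (s * ((N + s : ℕ) : ℝ))) ≤ Real.log (((N + s : ℕ) : ℝ) ^ 2) :=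
          Real.log_le_log h4 h1
      _ = 2 * l := by rw [Real.log_pow, hl]; norm_num
      _ = 4 * l / 2 := by ring
  obtain ⟨U, V, V', W, hF⟩ := exists_flat_border (H := H) hHs hr0 (by rw [hr2]; exact hHH)
    (by rw [hr2]; exact hHH') hcardN (Fin.castLE_injective hsN) (by linarith) hTc
  -- the parameter `η`
  set η : ℝ := 4 * s * L ^ 2 / r with hη
  have hη' : η = 16 * s * l / r := by rw [hη, hL2]; ring
  have hηr : η * r = 16 * s * l := by rw [hη']; field_simp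
  have hη0 : 0 ≤ η := by rw [hη']; positivity
  have hsl2 : s * l ≤ l ^ 2 := by nlinarith
  have hη4 : η * z ^ 4 ≤ 32 * l ^ 2 := by
    have h1 : η * (z ^ 4 / 2) ≤ η * r := mul_le_mul_of_nonneg_left hrlo hη0
    rw [hηr] at h1
    linarith
  have hl2z : 10 ^ 6 * l ^ 2 ≤ z ^ 4 := by
    have h1 : 10 ^ 6 * l ^ 2 ≤ z ^ 3 * l := by linarith
    have h2 : z ^ 3 * l ≤ 10 ^ 6 * l * z ^ 3 := by
      have : 0 ≤ z ^ 3 * l := by positivity
      linarith
    linarith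
  have hη1 : η ≤ 1 / 2 := by
    by_contra hcon
    push Not at hcon
    have hz4 : 0 < z ^ 4 := by positivity
    have h1 : 1 / 2 * z ^ 4 < η * z ^ 4 := mul_lt_mul_of_pos_right hcon hz4
    linarith
  have hn : (Fintype.card (Fin N ⊕ Fin s) : ℝ) = z ^ 8 := by
    rw [Fintype.card_sum, Fintype.card_fin, Fintype.card_fin, hz]
  have hK : 101 * z ^ 2 * ((Fintype.card (Fin N ⊕ Fin s) : ℝ) * (4 * η)) ≤ (114 * z ^ 3 * l) ^ 2 := by
    rw [hn]
    have e1 : 101 * z ^ 2 * (z ^ 8 * (4 * η)) = 404 * z ^ 6 * (η * z ^ 4) := by ring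
    have e2 : (114 * z ^ 3 * l) ^ 2 = 12996 * z ^ 6 * l ^ 2 := by ring
    rw [e1, e2]
    have h1 : 404 * z ^ 6 * (η * z ^ 4) ≤ 404 * z ^ 6 * (32 * l ^ 2) :=
      mul_le_mul_of_nonneg_left hη4 (by positivity)
    have h2 : 0 ≤ z ^ 6 * l ^ 2 := by positivity
    linarith
  have hsL : s * (1 + L) ≤ 3 * l ^ 2 := by
    calc s * (1 + L) ≤ l * (3 * l) := mul_le_mul hsl hLl (by positivity) hl0.le
      _ = 3 * l ^ 2 := by ring
  have hδ : s * (1 + L) + 114 * z ^ 3 * l ≤ 115 * (z ^ 3 * l) := by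
    have : 0 ≤ z ^ 3 * l := by positivity
    linarith
  have hzl4 : z ^ 3 * l ≤ z ^ 4 / 10 ^ 6 := by linarith
  have hbig : s * (1 + L) + 114 * z ^ 3 * l ≤ (1 - η) * r := by
    have h1 : 1 / 2 * r ≤ (1 - η) * r := mul_le_mul_of_nonneg_right (by linarith) hr0.le
    linarith
  obtain ⟨A, hA, hAy⟩ := exists_near hF hrbig hL1 hcardN (s := (s : ℝ)) (η := η)
    (by rw [Fintype.card_fin]) hs1' hη (by linarith) (q := z ^ 2) (one_le_pow₀ hz1)
    (by rw [hn]; exact le_of_eq (by ring)) (K := 114 * z ^ 3 * l) (by positivity) hK hbig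
  refine ⟨A.submatrix finSumFinEquiv.symm finSumFinEquiv.symm, fun i j => hA _ _, fun x => ?_⟩
  obtain ⟨h1, h2⟩ := nsq_reindex finSumFinEquiv A x
  obtain ⟨h3, h4⟩ := hAy (x ∘ finSumFinEquiv)
  rw [h2] at h3 h4
  rw [h1]
  set q := nsq (A *ᵥ (x ∘ finSumFinEquiv)) with hq
  have ht0 := nsq_nonneg x
  set t := nsq x with ht
  set d : ℝ := s * (1 + L) + 114 * z ^ 3 * l with hd
  have hd0 : 0 ≤ d := by positivity
  rw [hz]
  set w : ℝ := z ^ 3 * l with hw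
  have hw0 : 0 < w := by positivity
  -- upper bound
  have hup : ((1 - η) * r + d) ^ 2 ≤ z ^ 8 + z ^ 7 * l ^ 2 := by
    have g1 : (1 - η) * r + d ≤ z ^ 4 + 115 * w := by
      have : (1 - η) * r ≤ 1 * r := mul_le_mul_of_nonneg_right (by linarith) hr0.le
      linarith
    have g0 : 0 ≤ (1 - η) * r + d := add_nonneg (mul_nonneg (by linarith) hr0.le) hd0
    have g2 : ((1 - η) * r + d) ^ 2 ≤ (z ^ 4 + 115 * w) ^ 2 := pow_le_pow_left₀ g0 g1 2
    have g3 : (z ^ 4 + 115 * w) ^ 2 = z ^ 8 + 230 * (z ^ 4 * w) + 13225 * (w * w) := by ring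
    have g4 : w * w ≤ z ^ 4 * w := mul_le_mul_of_nonneg_right (by
      have : 0 < z ^ 4 := by positivity
      linarith) hw0.le
    have g5 : w * w ≤ z ^ 4 / 10 ^ 6 * w := mul_le_mul_of_nonneg_right hzl4 hw0.le
    have g6 : z ^ 4 * w = z ^ 7 * l := by rw [hw]; ring
    have g7 : 1000 * (z ^ 7 * l) ≤ z ^ 7 * l ^ 2 := by
      have : 0 ≤ z ^ 7 * l := by positivity
      calc 1000 * (z ^ 7 * l) ≤ l * (z ^ 7 * l) := mul_le_mul_of_nonneg_right hl1 this
        _ = z ^ 7 * l ^ 2 := by ring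
    have g8 : 0 ≤ z ^ 7 * l := by positivity
    rw [g3] at g2
    rw [g6] at g2
    have g9 : z ^ 4 / 10 ^ 6 * w = z ^ 7 * l / 10 ^ 6 := by rw [← g6]; ring
    linarith
  -- lower bound
  have hlow : z ^ 8 - z ^ 7 * l ^ 2 ≤ ((1 - η) * r - d) ^ 2 := by
    have g1 : z ^ 4 - 116 * w ≤ (1 - η) * r - d := by
      have e1 : (1 - η) * r = r - 16 * s * l := by rw [← hηr]; ring
      rw [e1]
      have e2 : s * l ≤ w / 10 ^ 6 := hsl2.trans hl2
      have e3 : (s : ℝ) ≤ w / 10 ^ 6 := by nlinarith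
      linarith
    have g0 : 0 ≤ z ^ 4 - 116 * w := by
      have : 0 < z ^ 4 := by positivity
      linarith
    have g2 : (z ^ 4 - 116 * w) ^ 2 ≤ ((1 - η) * r - d) ^ 2 := pow_le_pow_left₀ g0 g1 2
    have g3 : (z ^ 4 - 116 * w) ^ 2 = z ^ 8 - 232 * (z ^ 4 * w) + 13456 * (w * w) := by ring
    have g6 : z ^ 4 * w = z ^ 7 * l := by rw [hw]; ring
    have g7 : 1000 * (z ^ 7 * l) ≤ z ^ 7 * l ^ 2 := by
      have : 0 ≤ z ^ 7 * l := by positivity
      calc 1000 * (z ^ 7 * l) ≤ l * (z ^ 7 * l) := mul_le_mul_of_nonneg_right hl1 this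
        _ = z ^ 7 * l ^ 2 := by ring
    have g8 : 0 ≤ w * w := by positivity
    have g9 : 0 ≤ z ^ 7 * l := by positivity
    rw [g3, g6] at g2
    linarith
  rw [abs_le]
  constructor
  · have := mul_le_mul_of_nonneg_right hlow ht0
    linarith
  · have := mul_le_mul_of_nonneg_right hup ht0
    linarith

theorem main : ∃ N₀ : ℕ, ∀ n : ℕ, N₀ ≤ n → Near n ((n : ℝ) ^ (7 / 8 : ℝ) * Real.log n ^ 2) := by
  obtain ⟨N₁, h1⟩ := exists_had_below
  have h2 : ∀ᶠ n : ℕ in Filter.atTop, 10 ^ 6 * Real.log n ≤ (n : ℝ) ^ (1 / 8 : ℝ) := by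
    have h3 := (isLittleO_log_rpow_atTop (show (0 : ℝ) < 1 / 8 by norm_num)).bound
      (show (0 : ℝ) < 1 / 10 ^ 6 by norm_num)
    have h4 := tendsto_natCast_atTop_atTop.eventually h3
    filter_upwards [h4, Filter.eventually_ge_atTop 1] with n hn hn1
    have hn1' : (1 : ℝ) ≤ n := by exact_mod_cast hn1
    rw [Real.norm_of_nonneg (Real.log_nonneg hn1'), Real.norm_of_nonneg (by positivity)] at hn
    linarith
  have h3 : ∀ᶠ n : ℕ in Filter.atTop, (1000 : ℝ) ≤ Real.log n :=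
    (Real.tendsto_log_atTop.comp tendsto_natCast_atTop_atTop).eventually_ge_atTop 1000
  obtain ⟨N₂, h4⟩ := Filter.eventually_atTop.1 (h2.and h3)
  refine ⟨max (max N₁ N₂) 1, fun n hn => ?_⟩
  obtain ⟨h5, h6⟩ := h4 n ((le_trans (le_max_right _ _) (le_max_left _ _)).trans hn)
  obtain ⟨N, s, hNs, hHad, hs⟩ := h1 n ((le_trans (le_max_left _ _) (le_max_left _ _)).trans hn)
  have hn1 : 1 ≤ n := (le_max_right _ _).trans hn
  have hn0 : (0 : ℝ) < n := by exact_mod_cast hn1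
  set z : ℝ := (n : ℝ) ^ (1 / 8 : ℝ) with hz
  have hz0 : 0 < z := by positivity
  have hz8 : z ^ 8 = n := by
    rw [hz, ← Real.rpow_natCast, ← Real.rpow_mul hn0.le]; norm_num
  have hz7 : (n : ℝ) ^ (7 / 8 : ℝ) = z ^ 7 := by
    rw [hz, ← Real.rpow_natCast, ← Real.rpow_mul hn0.le]; norm_num
  rw [hz7]
  rcases Nat.eq_zero_or_pos s with h0 | h0
  · subst h0
    rw [add_zero] at hNs
    subst hNs
    obtain ⟨H, hH, hHH, hHH'⟩ := cast_had hn1 hHad
    refine ⟨H, hH, fun x => ?_⟩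
    have e : nsq (H *ᵥ x) = N * nsq x := by
      rw [← dot_self, Matrix.dotProduct_mulVec, ← Matrix.mulVec_transpose, Matrix.mulVec_mulVec,
        hHH', Matrix.smul_mulVec, Matrix.one_mulVec, smul_dotProduct, dot_self, smul_eq_mul]
    rw [e, sub_self, abs_zero]
    exact mul_nonneg (by positivity) (nsq_nonneg x)
  · subst hNs
    exact near_of hHad h0 hz8.symm hz0 rfl hs h6 h5

end Pool.Agent.H34AH
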