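import Mathlib
import Pool.Agent.H34AH.Border
import Pool.Agent.H34AH.Main

/-!
# Orthogonal matrices with nearly flat entries: one more row and column
-/

set_option autoImplicit false
set_option linter.unusedSectionVars false
set_option linter.unusedSimpArgs false

namespace Pool.Agent.H34AH

open Finset Matrix

variable {ι : Type*} [Fintype ι] [DecidableEq ι]

/-- a column vector as a matrix -/
def col (v : ι → ℝ) : Matrix ι Unit ℝ := Matrix.of fun i _ => v i

lemma col_mul_col (u v : ι → ℝ) : (col u)ᵀ * col v = (u ⬝ᵥ v) • (1 : Matrix Unit Unit ℝ) := by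
  ext i j
  simp [Matrix.mul_apply, col, dotProduct]

lemma col_mul (u : ι → ℝ) (O : Matrix ι ι ℝ) : (col u)ᵀ * O = (col (Oᵀ *ᵥ u))ᵀ := by
  ext i j
  simp only [Matrix.mul_apply, col, Matrix.transpose_apply, Matrix.of_apply, Matrix.mulVec, dotProduct]
  exact sum_congr rfl fun k _ => mul_comm _ _

/-- the border of width one -/
theorem exists_border {O : Matrix ι ι ℝ} (hO : Oᵀ * O = 1) (hO' : O * Oᵀ = 1) {r L : ℝ} (hr : 1 ≤ r)
    (hcard : (Fintype.card ι : ℝ) = r ^ 2) (hL : 1 ≤ L) (hLr : 16 * L ^ 2 ≤ r)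
    (hT : Real.log (2 * (Fintype.card (ι ⊕ Unit) : ℝ)) ≤ L ^ 2 / 2)
    {θ : ℝ} (hθ0 : 0 ≤ θ) (hθr : θ ≤ 1 / r) :
    ∃ G : Matrix (ι ⊕ Unit) (ι ⊕ Unit) ℝ, Gᵀ * G = 1 ∧
      (∀ i j, |G (Sum.inl i) (Sum.inl j) - O i j| ≤ 16 * L ^ 2 / r ^ 2) ∧
      (∀ i, ∃ e : ℝ, (e = 1 ∨ e = -1) ∧ |G (Sum.inl i) (Sum.inr ()) - e / r| ≤ 16 * L ^ 2 / r ^ 2) ∧
      (∀ i, ∃ e : ℝ, (e = 1 ∨ e = -1) ∧ |G (Sum.inr ()) (Sum.inl i) - e / r| ≤ 16 * L ^ 2 / r ^ 2) ∧
      G (Sum.inr ()) (Sum.inr ()) = θ := by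
  have hr0 : 0 < r := by linarith
  have hrne := hr0.ne'
  have hL0 : 0 < L := by linarith
  have hsg : ∀ b : Bool, sgn b = 1 ∨ sgn b = -1 := by
    intro b; cases b <;> simp [sgn]
  have hsg2 : ∀ b : Bool, sgn b ^ 2 = 1 := by
    intro b; cases b <;> simp [sgn]
  have hsga : ∀ b : Bool, |sgn b| = 1 := by
    intro b; cases b <;> simp [sgn]
  have hrow : ∀ i, ∑ k, O i k ^ 2 = 1 := by
    intro i
    have := congrFun (congrFun hO' i) i
    rw [Matrix.mul_apply, Matrix.one_apply_eq] at this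
    rw [← this]
    exact sum_congr rfl fun k _ => by rw [Matrix.transpose_apply]; ring
  have hcol : ∀ i, ∑ k, O k i ^ 2 = 1 := by
    intro i
    have := congrFun (congrFun hO i) i
    rw [Matrix.mul_apply, Matrix.one_apply_eq] at this
    rw [← this]
    exact sum_congr rfl fun k _ => by rw [Matrix.transpose_apply]; ring
  have hcardT : (Fintype.card ι : ℝ) ≤ Fintype.card (ι ⊕ Unit) := by
    rw [Fintype.card_sum]; push_cast; linarith [show (0 : ℝ) ≤ (Fintype.card Unit : ℝ) from Nat.cast_nonneg _]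
  have hcp : (0 : ℝ) < Fintype.card ι := by rw [hcard]; positivity
  -- the new row
  obtain ⟨b, hb⟩ := exists_flat (T := ι) (m := ι) (fun t k => O t k) (fun _ => 1)
    (fun _ => one_pos) (fun t => by rw [hrow]; norm_num) hL0
    ((Real.log_le_log (by positivity) (by linarith)).trans hT)
  set v' : ι → ℝ := fun k => sgn (b k) / r with hv'
  set v : ι → ℝ := O *ᵥ v' with hv
  have hv'n : v' ⬝ᵥ v' = 1 := by
    rw [dot_self, nsq]
    simp only [hv', div_pow, hsg2]
    rw [sum_const, nsmul_eq_mul, card_univ, hcard]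
    field_simp
  have hvn : v ⬝ᵥ v = 1 := by
    rw [hv, Matrix.dotProduct_mulVec, ← Matrix.mulVec_transpose, Matrix.mulVec_mulVec, hO,
      Matrix.one_mulVec, hv'n]
  have hOv : Oᵀ *ᵥ v = v' := by rw [hv, Matrix.mulVec_mulVec, hO, Matrix.one_mulVec]
  have hvb : ∀ i, |v i| ≤ L / r := by
    intro i
    have e : v i = (∑ k, O i k * sgn (b k)) / r := by
      simp only [hv, Matrix.mulVec, dotProduct, hv']
      rw [sum_div]
      exact sum_congr rfl fun k _ => by ring
    rw [e, abs_div, abs_of_pos hr0]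
    apply div_le_div_of_nonneg_right _ hr0.le
    have := hb i
    rwa [mul_one] at this
  -- the new column
  obtain ⟨c, hc⟩ := exists_flat (T := ι ⊕ Unit) (m := ι)
    (fun t k => match t with
      | Sum.inl t => O k t
      | Sum.inr _ => v k) (fun _ => 1)
    (fun _ => one_pos) (fun t => by
      rcases t with t | t
      · simp only; rw [hcol]; norm_num
      · simp only
        have : ∑ k, v k ^ 2 = 1 := by rw [← hvn, dot_self]; rfl
        rw [this]; norm_num) hL0 hT
  set u0 : ι → ℝ := fun k => sgn (c k) / r with hu0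
  have hu0n : u0 ⬝ᵥ u0 = 1 := by
    rw [dot_self, nsq]
    simp only [hu0, div_pow, hsg2]
    rw [sum_const, nsmul_eq_mul, card_univ, hcard]
    field_simp
  set w0 : ι → ℝ := Oᵀ *ᵥ u0 with hw0
  have hw0b : ∀ i, |w0 i| ≤ L / r := by
    intro i
    have e : w0 i = (∑ k, O k i * sgn (c k)) / r := by
      simp only [hw0, Matrix.mulVec, dotProduct, hu0, Matrix.transpose_apply]
      rw [sum_div]
      exact sum_congr rfl fun k _ => by ring
    rw [e, abs_div, abs_of_pos hr0]
    apply div_le_div_of_nonneg_right _ hr0.le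
    have := hc (Sum.inl i)
    simp only at this
    rwa [mul_one] at this
  set δ : ℝ := v ⬝ᵥ u0 with hδ
  have hδb : |δ| ≤ L / r := by
    have e : δ = (∑ k, v k * sgn (c k)) / r := by
      simp only [hδ, dotProduct, hu0]
      rw [sum_div]
      exact sum_congr rfl fun k _ => by ring
    rw [e, abs_div, abs_of_pos hr0]
    apply div_le_div_of_nonneg_right _ hr0.le
    have := hc (Sum.inr ())
    simp only at this
    rwa [mul_one] at this
  -- sizes
  have hLL : L ≤ L ^ 2 := by nlinarith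
  have hr16 : 16 ≤ r := by nlinarith
  have hLr1 : L / r ≤ 1 / 16 := by
    rw [div_le_div_iff₀ hr0 (by norm_num)]; linarith
  have h1r : 1 / r ≤ 1 / 16 := one_div_le_one_div_of_le (by norm_num) hr16
  have hδ2 : δ ^ 2 ≤ L ^ 2 / r ^ 2 := by
    have := sq_le_sq' (abs_le.1 hδb).1 (abs_le.1 hδb).2
    rwa [div_pow] at this
  have hδ2' : δ ^ 2 ≤ 1 / 256 := by
    have h1 := abs_le.1 hδb
    nlinarith
  have hθ2 : θ ^ 2 ≤ 1 / r ^ 2 := by
    have := pow_le_pow_left₀ hθ0 hθr 2
    rwa [div_pow, one_pow] at this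
  have hθ2' : θ ^ 2 ≤ 1 / 256 := by nlinarith
  set a : ℝ := Real.sqrt ((1 - θ ^ 2) / (1 - δ ^ 2)) with ha
  have h1δ : 0 < 1 - δ ^ 2 := by linarith
  have h1θ : 0 < 1 - θ ^ 2 := by linarith
  have ha2 : a ^ 2 = (1 - θ ^ 2) / (1 - δ ^ 2) := Real.sq_sqrt (by positivity)
  have ha0 : 0 < a := Real.sqrt_pos.2 (by positivity)
  have hL2r : L ^ 2 / r ^ 2 ≤ 1 / 256 := by
    have := pow_le_pow_left₀ (by positivity) hLr1 2
    rw [div_pow] at this
    norm_num at this ⊢
    exact this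
  have h1L : 1 / r ^ 2 ≤ L ^ 2 / r ^ 2 := by
    apply div_le_div_of_nonneg_right _ (by positivity)
    nlinarith
  have ha1 : |a - 1| ≤ 2 * (L ^ 2 / r ^ 2) := by
    -- `a ^ 2 - 1 = (δ ^ 2 - θ ^ 2) / (1 - δ ^ 2)`
    have h1 : a ^ 2 - 1 = (δ ^ 2 - θ ^ 2) / (1 - δ ^ 2) := by
      rw [ha2]; field_simp; ring
    have h2 : |a ^ 2 - 1| ≤ 2 * (L ^ 2 / r ^ 2) := by
      rw [h1, abs_div, abs_of_pos h1δ, div_le_iff₀ h1δ, abs_le]
      have h3 : 0 ≤ L ^ 2 / r ^ 2 := by positivity
      constructor <;> nlinarith [sq_nonneg δ, sq_nonneg θ]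
    have h3 : |a - 1| ≤ |a ^ 2 - 1| := by
      have h4 : a ^ 2 - 1 = (a - 1) * (a + 1) := by ring
      rw [h4, abs_mul, abs_of_pos (show 0 < a + 1 by linarith)]
      have := abs_nonneg (a - 1)
      nlinarith
    exact h3.trans h2
  have ha1' := abs_le.1 ha1
  have ha9 : a ≤ 9 / 8 := by linarith
  set β : ℝ := θ - a * δ with hβ
  have hβb : |β| ≤ 3 * L / r := by
    have h1 : |a * δ| ≤ 9 / 8 * (L / r) := by
      rw [abs_mul, abs_of_pos ha0]
      exact mul_le_mul ha9 hδb (abs_nonneg _) (by norm_num)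
    have h2 : θ ≤ L / r := hθr.trans (div_le_div_of_nonneg_right hL hr0.le)
    have h3 : |β| ≤ |θ| + |a * δ| := abs_sub _ _
    rw [abs_of_nonneg hθ0] at h3
    have h4 : 3 * L / r = 3 * (L / r) := by ring
    rw [h4]
    have h5 : 0 ≤ L / r := by positivity
    linarith
  set u : ι → ℝ := a • u0 + β • v with hu
  have huv : v ⬝ᵥ u = θ := by
    rw [hu, dotProduct_add, dotProduct_smul, dotProduct_smul, hvn, ← hδ]
    simp only [smul_eq_mul, hβ]; ring
  have hun : u ⬝ᵥ u = 1 := by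
    have h1 : u ⬝ᵥ u = a ^ 2 + 2 * a * β * δ + β ^ 2 := by
      have hd : u0 ⬝ᵥ v = δ := by rw [hδ, dotProduct_comm]
      rw [hu, dotProduct_add, add_dotProduct, add_dotProduct, smul_dotProduct, smul_dotProduct,
        smul_dotProduct, smul_dotProduct, dotProduct_smul, dotProduct_smul, dotProduct_smul,
        dotProduct_smul, hvn, hu0n, hd, ← hδ]
      simp only [smul_eq_mul]; ring
    have h2 : a ^ 2 * (1 - δ ^ 2) = 1 - θ ^ 2 := by rw [ha2]; field_simp
    rw [h1, hβ]
    linear_combination h2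
  have hOu : Oᵀ *ᵥ u = a • w0 + β • v' := by
    rw [hu, Matrix.mulVec_add, Matrix.mulVec_smul, Matrix.mulVec_smul, hOv, ← hw0]
  set w : ι → ℝ := Oᵀ *ᵥ u with hw
  have hv'b : ∀ i, |v' i| ≤ 1 / r := by
    intro i
    simp only [hv']
    rw [abs_div, hsga, abs_of_pos hr0]
  have hβ1 : |β| ≤ 3 / 16 := by
    have h4 : 3 * L / r = 3 * (L / r) := by ring
    rw [h4] at hβb
    linarith
  have hwb : ∀ i, |w i| ≤ 2 * L / r := by
    intro i
    rw [hOu]
    simp only [Pi.add_apply, Pi.smul_apply, smul_eq_mul]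
    have h1 : |a * w0 i| ≤ 9 / 8 * (L / r) := by
      rw [abs_mul, abs_of_pos ha0]
      exact mul_le_mul ha9 (hw0b i) (abs_nonneg _) (by norm_num)
    have h2 : |β * v' i| ≤ 3 / 16 * (1 / r) := by
      rw [abs_mul]
      exact mul_le_mul hβ1 (hv'b i) (abs_nonneg _) (by norm_num)
    have h3 := abs_add_le (a * w0 i) (β * v' i)
    have h4 : 1 / r ≤ L / r := div_le_div_of_nonneg_right hL hr0.le
    have h5 : 2 * L / r = 2 * (L / r) := by ring
    have h6 : 0 ≤ L / r := by positivity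
    rw [h5]
    linarith
  have hub : ∀ i, |u i - sgn (c i) / r| ≤ 4 * (L ^ 2 / r ^ 2) := by
    intro i
    have e : u i - sgn (c i) / r = (a - 1) * (sgn (c i) / r) + β * v i := by
      simp only [hu, hu0, Pi.add_apply, Pi.smul_apply, smul_eq_mul]; ring
    rw [e]
    have h1 : |(a - 1) * (sgn (c i) / r)| ≤ 2 * (L ^ 2 / r ^ 2) * (1 / 16) := by
      rw [abs_mul]
      apply mul_le_mul ha1 _ (abs_nonneg _) (by positivity)
      rw [abs_div, hsga, abs_of_pos hr0]
      exact h1r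
    have h2 : |β * v i| ≤ 3 * (L ^ 2 / r ^ 2) := by
      rw [abs_mul]
      calc |β| * |v i| ≤ (3 * L / r) * (L / r) :=
            mul_le_mul hβb (hvb i) (abs_nonneg _) (by positivity)
        _ = 3 * (L ^ 2 / r ^ 2) := by field_simp
    have h3 := abs_add_le ((a - 1) * (sgn (c i) / r)) (β * v i)
    have h4 : 0 ≤ L ^ 2 / r ^ 2 := by positivity
    linarith
  have hub' : ∀ i, |u i| ≤ 2 / r := by
    intro i
    have h1 := hub i
    have h2 : |sgn (c i) / r| = 1 / r := by rw [abs_div, hsga, abs_of_pos hr0]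
    have h3 : |u i| ≤ |u i - sgn (c i) / r| + |sgn (c i) / r| := by
      have := abs_add_le (u i - sgn (c i) / r) (sgn (c i) / r)
      rwa [sub_add_cancel] at this
    have h4 : 4 * (L ^ 2 / r ^ 2) ≤ 1 / r := by
      have e1 : 4 * (L ^ 2 / r ^ 2) = (4 * L ^ 2 / r) / r := by field_simp
      rw [e1]
      apply div_le_div_of_nonneg_right _ hr0.le
      rw [div_le_one hr0]
      nlinarith [sq_nonneg L]
    have h5 : 2 / r = 1 / r + 1 / r := by ring
    linarith
  -- the matrix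
  have hVV : (col v)ᵀ * col v = 1 := by rw [col_mul_col, hvn, one_smul]
  have hUU : (col u)ᵀ * col u = 1 := by rw [col_mul_col, hun, one_smul]
  have hGe := Gm_eq (O := O) (U := col u) (V := col v) (V' := col v') (W := col w)
    (by rw [col_mul, hOv]) (by rw [col_mul])
  have hΔ : (col v)ᵀ * col u = θ • (1 : Matrix Unit Unit ℝ) := by rw [col_mul_col, huv]
  have ent : ∀ (x y : ι → ℝ) (i j : ι), (col x * (col y)ᵀ) i j = x i * y j := by
    intro x y i j
    simp [Matrix.mul_apply, col]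
  rw [hΔ] at hGe
  refine ⟨Gm O (col u) (col v), Gm_orth hO hUU hVV, ?_, ?_, ?_, ?_⟩
  · intro i j
    rw [hGe, fromBlocks_apply₁₁]
    simp only [Matrix.add_apply, Matrix.sub_apply, Matrix.mul_smul, Matrix.smul_mul, Matrix.mul_one,
      Matrix.smul_apply, ent, smul_eq_mul]
    have e : O i j - v i * v' j - u i * w j + θ * (v i * w j) + v i * w j - O i j =
        -(v i * v' j) + (-(u i * w j)) + (1 + θ) * (v i * w j) := by ring
    rw [e]
    have h1 : |-(v i * v' j)| ≤ L ^ 2 / r ^ 2 := by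
      rw [abs_neg, abs_mul]
      calc |v i| * |v' j| ≤ (L / r) * (1 / r) :=
            mul_le_mul (hvb i) (hv'b j) (abs_nonneg _) (by positivity)
        _ = L / r ^ 2 := by field_simp
        _ ≤ L ^ 2 / r ^ 2 := div_le_div_of_nonneg_right hLL (by positivity)
    have h2 : |-(u i * w j)| ≤ 4 * (L ^ 2 / r ^ 2) := by
      rw [abs_neg, abs_mul]
      calc |u i| * |w j| ≤ (2 / r) * (2 * L / r) :=
            mul_le_mul (hub' i) (hwb j) (abs_nonneg _) (by positivity)
        _ = 4 * (L / r ^ 2) := by field_simp; ring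
        _ ≤ 4 * (L ^ 2 / r ^ 2) := by
            apply mul_le_mul_of_nonneg_left _ (by norm_num)
            exact div_le_div_of_nonneg_right hLL (by positivity)
    have h3 : |(1 + θ) * (v i * w j)| ≤ 4 * (L ^ 2 / r ^ 2) := by
      rw [abs_mul, abs_mul, abs_of_nonneg (by linarith)]
      calc (1 + θ) * (|v i| * |w j|) ≤ 2 * ((L / r) * (2 * L / r)) := by
            apply mul_le_mul (by linarith) _ (by positivity) (by norm_num)
            exact mul_le_mul (hvb i) (hwb j) (abs_nonneg _) (by positivity)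
        _ = 4 * (L ^ 2 / r ^ 2) := by field_simp; ring
    have h4 := abs_add_le (-(v i * v' j) + (-(u i * w j))) ((1 + θ) * (v i * w j))
    have h5 := abs_add_le (-(v i * v' j)) (-(u i * w j))
    have h6 : 16 * L ^ 2 / r ^ 2 = 16 * (L ^ 2 / r ^ 2) := by ring
    have h7 : 0 ≤ L ^ 2 / r ^ 2 := by positivity
    rw [h6]
    linarith
  · intro i
    refine ⟨sgn (c i), hsg _, ?_⟩
    rw [hGe, fromBlocks_apply₁₂]
    simp only [Matrix.add_apply, Matrix.sub_apply, Matrix.mul_smul, Matrix.smul_mul, Matrix.mul_one,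
      Matrix.smul_apply, smul_eq_mul, col, Matrix.of_apply]
    have e : u i - θ * v i - sgn (c i) / r = (u i - sgn (c i) / r) + (-(θ * v i)) := by ring
    rw [e]
    have h1 := hub i
    have h2 : |-(θ * v i)| ≤ L ^ 2 / r ^ 2 := by
      rw [abs_neg, abs_mul, abs_of_nonneg hθ0]
      calc θ * |v i| ≤ (1 / r) * (L / r) := mul_le_mul hθr (hvb i) (abs_nonneg _) (by positivity)
        _ = L / r ^ 2 := by field_simp
        _ ≤ L ^ 2 / r ^ 2 := div_le_div_of_nonneg_right hLL (by positivity)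
    have h4 := abs_add_le (u i - sgn (c i) / r) (-(θ * v i))
    have h6 : 16 * L ^ 2 / r ^ 2 = 16 * (L ^ 2 / r ^ 2) := by ring
    have h7 : 0 ≤ L ^ 2 / r ^ 2 := by positivity
    rw [h6]
    linarith
  · intro i
    refine ⟨sgn (b i), hsg _, ?_⟩
    rw [hGe, fromBlocks_apply₂₁]
    simp only [Matrix.add_apply, Matrix.sub_apply, Matrix.mul_smul, Matrix.smul_mul, Matrix.mul_one,
      Matrix.one_mul, Matrix.smul_apply, smul_eq_mul, col, Matrix.of_apply, Matrix.transpose_apply]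
    have e : v' i - θ * w i - sgn (b i) / r = -(θ * w i) := by simp only [hv']; ring
    rw [e, abs_neg, abs_mul, abs_of_nonneg hθ0]
    have h6 : 16 * L ^ 2 / r ^ 2 = 16 * (L ^ 2 / r ^ 2) := by ring
    have h7 : 0 ≤ L ^ 2 / r ^ 2 := by positivity
    rw [h6]
    calc θ * |w i| ≤ (1 / r) * (2 * L / r) := mul_le_mul hθr (hwb i) (abs_nonneg _) (by positivity)
      _ = 2 * (L / r ^ 2) := by field_simp
      _ ≤ 2 * (L ^ 2 / r ^ 2) := by
          apply mul_le_mul_of_nonneg_left _ (by norm_num)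
          exact div_le_div_of_nonneg_right hLL (by positivity)
      _ ≤ 16 * (L ^ 2 / r ^ 2) := by linarith
  · rw [hGe, fromBlocks_apply₂₂]
    simp

end Pool.Agent.H34AH
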