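import Mathlib
import Pool.Agent.H34AH.Orth
import Pool.Agent.H34AH.Final

/-!
# Orthogonal matrices with nearly flat entries in every order
-/

set_option autoImplicit false
set_option linter.unusedSectionVars false
set_option linter.unusedSimpArgs false

namespace Pool.Agent.H34AH

open Finset Matrix

/-- a multiple of an orthogonal matrix with entries close to signs -/
def AF (n : ℕ) (ε : ℝ) : Prop := ∃ M : Matrix (Fin n) (Fin n) ℝ,
  M * Mᵀ = (n : ℝ) • (1 : Matrix (Fin n) (Fin n) ℝ) ∧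
    ∀ i j, ∃ e : ℝ, (e = 1 ∨ e = -1) ∧ |M i j - e| ≤ ε

lemma AF.mono {n : ℕ} {ε ε' : ℝ} (h : AF n ε) (hε : ε ≤ ε') : AF n ε' := by
  obtain ⟨M, h1, h2⟩ := h
  exact ⟨M, h1, fun i j => by
    obtain ⟨e, he, hx⟩ := h2 i j
    exact ⟨e, he, hx.trans hε⟩⟩

lemma AF_step {n : ℕ} (hn : 1 ≤ n) {ε L : ℝ} (hε1 : ε ≤ 1) (hL : 1 ≤ L)
    (hLr : 16 * L ^ 2 ≤ Real.sqrt n) (hT : Real.log (2 * ((n + 1 : ℕ) : ℝ)) ≤ L ^ 2 / 2)
    (h : AF n ε) : AF (n + 1) (ε + 40 * L ^ 2 / Real.sqrt n) := by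
  obtain ⟨M, hM, hMe⟩ := h
  have hn0 : (0 : ℝ) < n := by exact_mod_cast hn
  have hn1 : (1 : ℝ) ≤ n := by exact_mod_cast hn
  set r : ℝ := Real.sqrt n with hr
  have hr2 : r ^ 2 = n := Real.sq_sqrt hn0.le
  have hr1 : 1 ≤ r := by rw [hr, Real.one_le_sqrt]; exact hn1
  have hr0 : 0 < r := by linarith
  set r' : ℝ := Real.sqrt ((n + 1 : ℕ) : ℝ) with hr'
  have hr'2 : r' ^ 2 = r ^ 2 + 1 := by
    rw [hr2, hr', Real.sq_sqrt (Nat.cast_nonneg _)]; push_cast; ring
  have hr'0 : 0 ≤ r' := Real.sqrt_nonneg _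
  have hrr' : r ≤ r' := by
    rw [hr, hr']; apply Real.sqrt_le_sqrt; push_cast; linarith
  have hr'r : r' ≤ 2 * r := by nlinarith
  have hgap : r' / r - 1 ≤ L ^ 2 / (2 * r) := by
    have h1 : (r' - r) * (r' + r) = 1 := by nlinarith
    have h2 : r' - r ≤ 1 / (2 * r) := by
      rw [le_div_iff₀ (by positivity)]
      nlinarith
    have h3 : r' / r - 1 = (r' - r) / r := by field_simp
    rw [h3, div_le_iff₀ hr0]
    have h4 : 1 / (2 * r) ≤ L ^ 2 / (2 * r) * r := by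
      rw [div_mul_eq_mul_div, div_le_div_iff_of_pos_right (by positivity)]
      nlinarith
    linarith
  have hgap0 : 0 ≤ r' / r - 1 := by
    rw [sub_nonneg, le_div_iff₀ hr0]; linarith
  have hMM : Mᵀ * M = (n : ℝ) • (1 : Matrix (Fin n) (Fin n) ℝ) := by
    have h2 : M * ((n : ℝ)⁻¹ • Mᵀ) = 1 := by
      rw [Matrix.mul_smul, hM, smul_smul, inv_mul_cancel₀ hn0.ne', one_smul]
    have h3 := mul_eq_one_comm.1 h2
    rw [Matrix.smul_mul] at h3
    have h4 := congrArg (fun M => (n : ℝ) • M) h3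
    rwa [smul_smul, mul_inv_cancel₀ hn0.ne', one_smul] at h4
  have hO : ((1 / r) • M)ᵀ * ((1 / r) • M) = 1 := by
    rw [transpose_smul, smul_mul_smul_comm, hMM, smul_smul, ← hr2]
    have : 1 / r * (1 / r) * r ^ 2 = 1 := by field_simp
    rw [this, one_smul]
  have hO' : ((1 / r) • M) * ((1 / r) • M)ᵀ = 1 := by
    rw [transpose_smul, smul_mul_smul_comm, hM, smul_smul, ← hr2]
    have : 1 / r * (1 / r) * r ^ 2 = 1 := by field_simp
    rw [this, one_smul]
  have hr'1 : 0 < r' := lt_of_lt_of_le hr0 hrr'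
  obtain ⟨G, hG, h11, h12, h21, h22⟩ := exists_border hO hO' hr1 (by rw [Fintype.card_fin, hr2]) hL hLr
    (by
      have e : (Fintype.card (Fin n ⊕ Unit) : ℝ) = ((n + 1 : ℕ) : ℝ) := by
        rw [Fintype.card_sum, Fintype.card_fin, Fintype.card_unit]
      rw [e]; exact hT) (θ := 1 / r') (by positivity) (one_div_le_one_div_of_le hr0 hrr')
  have hGG : G * Gᵀ = 1 := mul_eq_one_comm.1 hG
  let e : Fin n ⊕ Unit ≃ Fin (n + 1) :=
    (Equiv.sumCongr (Equiv.refl _) (Equiv.ofUnique Unit (Fin 1))).trans finSumFinEquiv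
  refine ⟨(r' • G).submatrix e.symm e.symm, ?_, ?_⟩
  · rw [Matrix.transpose_submatrix, Matrix.submatrix_mul_equiv, transpose_smul, smul_mul_smul_comm,
      hGG]
    have e1 : r' * r' = ((n + 1 : ℕ) : ℝ) := by
      rw [hr', Real.mul_self_sqrt (Nat.cast_nonneg _)]
    rw [e1]
    ext i j
    simp [Matrix.one_apply]
  · have hb1 : r' * (16 * L ^ 2 / r ^ 2) ≤ 32 * L ^ 2 / r := by
      calc r' * (16 * L ^ 2 / r ^ 2) ≤ 2 * r * (16 * L ^ 2 / r ^ 2) :=
            mul_le_mul_of_nonneg_right hr'r (by positivity)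
        _ = 32 * L ^ 2 / r := by field_simp; ring
    have hL0 : 0 ≤ L ^ 2 / r := by positivity
    have e40 : 40 * L ^ 2 / r = 40 * (L ^ 2 / r) := by ring
    have e32 : 32 * L ^ 2 / r = 32 * (L ^ 2 / r) := by ring
    have eg : L ^ 2 / (2 * r) = 1 / 2 * (L ^ 2 / r) := by field_simp
    rw [eg] at hgap
    rw [e32] at hb1
    rw [e40]
    intro i j
    rw [Matrix.submatrix_apply, Matrix.smul_apply, smul_eq_mul]
    have hε0 : 0 ≤ ε := by
      obtain ⟨e0, _, hx⟩ := hMe ⟨0, by omega⟩ ⟨0, by omega⟩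
      exact (abs_nonneg _).trans hx
    -- borders
    have hbd : ∀ (x e : ℝ), (e = 1 ∨ e = -1) → |x - e / r| ≤ 16 * L ^ 2 / r ^ 2 →
        |r' * x - e| ≤ ε + 40 * (L ^ 2 / r) := by
      intro x e he hx
      have e1 : r' * x - e = r' * (x - e / r) + e * (r' / r - 1) := by field_simp; ring
      rw [e1]
      have h1 : |r' * (x - e / r)| ≤ 32 * (L ^ 2 / r) := by
        rw [abs_mul, abs_of_pos hr'1]
        exact (mul_le_mul_of_nonneg_left hx hr'0).trans hb1
      have h2 : |e * (r' / r - 1)| ≤ 1 / 2 * (L ^ 2 / r) := by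
        have he1 : |e| = 1 := by rcases he with rfl | rfl <;> simp
        rw [abs_mul, he1, one_mul, abs_of_nonneg hgap0]
        exact hgap
      have h3 := abs_add_le (r' * (x - e / r)) (e * (r' / r - 1))
      linarith
    rcases e.symm i with i | i <;> rcases e.symm j with j | j
    · obtain ⟨e0, he0, hx⟩ := hMe i j
      refine ⟨e0, he0, ?_⟩
      have h1 := h11 i j
      rw [Matrix.smul_apply, smul_eq_mul] at h1
      have e1 : r' * G (Sum.inl i) (Sum.inl j) - e0 = r' * (G (Sum.inl i) (Sum.inl j) - 1 / r * M i j) +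
          ((M i j - e0) + M i j * (r' / r - 1)) := by field_simp; ring
      rw [e1]
      have h2 : |r' * (G (Sum.inl i) (Sum.inl j) - 1 / r * M i j)| ≤ 32 * (L ^ 2 / r) := by
        rw [abs_mul, abs_of_pos hr'1]
        exact (mul_le_mul_of_nonneg_left h1 hr'0).trans hb1
      have h3 : |M i j| ≤ 2 := by
        have he1 : |e0| = 1 := by rcases he0 with rfl | rfl <;> simp
        have := abs_add_le (M i j - e0) e0
        rw [sub_add_cancel] at this
        linarith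
      have h4 : |M i j * (r' / r - 1)| ≤ L ^ 2 / r := by
        rw [abs_mul, abs_of_nonneg hgap0]
        calc |M i j| * (r' / r - 1) ≤ 2 * (1 / 2 * (L ^ 2 / r)) :=
              mul_le_mul h3 hgap hgap0 (by norm_num)
          _ = L ^ 2 / r := by ring
      have h5 := abs_add_le (r' * (G (Sum.inl i) (Sum.inl j) - 1 / r * M i j))
        ((M i j - e0) + M i j * (r' / r - 1))
      have h6 := abs_add_le (M i j - e0) (M i j * (r' / r - 1))
      linarith
    · obtain ⟨e0, he0, hx⟩ := h12 i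
      exact ⟨e0, he0, hbd _ _ he0 hx⟩
    · obtain ⟨e0, he0, hx⟩ := h21 j
      exact ⟨e0, he0, hbd _ _ he0 hx⟩
    · refine ⟨1, Or.inl rfl, ?_⟩
      have e1 : G (Sum.inr i) (Sum.inr j) = 1 / r' := h22
      rw [e1, mul_one_div_cancel hr'1.ne', sub_self, abs_zero]
      positivity

lemma AF_had {N : ℕ} (hN : 0 < N) (h : Pool.Agent.H108R3.Had.HasHad N) : AF N 0 := by
  obtain ⟨H, h1, h2, _⟩ := cast_had hN h
  refine ⟨H, h2, fun i j => ⟨H i j, h1 i j, ?_⟩⟩
  simp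

lemma AF_iter {N : ℕ} (hN : 1 ≤ N) (h : AF N 0) {L : ℝ} (hL : 1 ≤ L) (hLr : 16 * L ^ 2 ≤ Real.sqrt N)
    (s : ℕ) (hT : Real.log (2 * ((N + s : ℕ) : ℝ)) ≤ L ^ 2 / 2)
    (hs : s * (40 * L ^ 2 / Real.sqrt N) ≤ 1) (j : ℕ) (hj : j ≤ s) :
    AF (N + j) (j * (40 * L ^ 2 / Real.sqrt N)) := by
  have hN1 : (1 : ℝ) ≤ N := by exact_mod_cast hN
  have hsq : 0 < Real.sqrt N := Real.sqrt_pos.2 (by linarith)
  have hc0 : 0 ≤ 40 * L ^ 2 / Real.sqrt N := by positivity
  induction j with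
  | zero => simpa using h
  | succ j ih =>
    have h1 := ih (by omega)
    have h2 : Real.sqrt N ≤ Real.sqrt ((N + j : ℕ) : ℝ) := by
      apply Real.sqrt_le_sqrt; push_cast; linarith [show (0 : ℝ) ≤ j from Nat.cast_nonneg _]
    have h3 : (j : ℝ) * (40 * L ^ 2 / Real.sqrt N) ≤ 1 := by
      refine le_trans (mul_le_mul_of_nonneg_right ?_ hc0) hs
      exact_mod_cast (by omega : j ≤ s)
    have h4 := AF_step (n := N + j) (by omega) h3 hL (hLr.trans h2) (by
      refine le_trans (Real.log_le_log (by positivity) ?_) hT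
      have : ((N + j + 1 : ℕ) : ℝ) ≤ ((N + s : ℕ) : ℝ) := by exact_mod_cast (by omega)
      linarith) h1
    have e : N + (j + 1) = N + j + 1 := by ring
    rw [e]
    apply h4.mono
    have h5 : 40 * L ^ 2 / Real.sqrt ((N + j : ℕ) : ℝ) ≤ 40 * L ^ 2 / Real.sqrt N :=
      div_le_div_of_nonneg_left (by positivity) hsq h2
    push_cast at h5 ⊢
    linarith

theorem orth_main : ∃ N₀ : ℕ, ∀ n : ℕ, N₀ ≤ n → AF n (Real.log n ^ 3 / Real.sqrt n) := by
  obtain ⟨N₁, h1⟩ := exists_had_below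
  have h2 : ∀ᶠ n : ℕ in Filter.atTop, 10 ^ 6 * Real.log n ≤ (n : ℝ) ^ (1 / 8 : ℝ) := by
    have h3 := (isLittleO_log_rpow_atTop (show (0 : ℝ) < 1 / 8 by norm_num)).bound
      (show (0 : ℝ) < 1 / 10 ^ 6 by norm_num)
    have h4 := tendsto_natCast_atTop_atTop.eventually h3
    filter_upwards [h4, Filter.eventually_ge_atTop 1] with n hn hn1
    have hn1' : (1 : ℝ) ≤ n := by exact_mod_cast hn1
    rw [Real.norm_of_nonneg (Real.log_nonneg hn1'), Real.norm_of_nonneg (by positivity)] at hn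
    linarith
  have h3 : ∀ᶠ n : ℕ in Filter.atTop, (1000 : ℝ) ≤ Real.log n :=
    (Real.tendsto_log_atTop.comp tendsto_natCast_atTop_atTop).eventually_ge_atTop 1000
  obtain ⟨N₂, h4⟩ := Filter.eventually_atTop.1 (h2.and h3)
  refine ⟨max (max N₁ N₂) 1, fun n hn => ?_⟩
  obtain ⟨h5, h6⟩ := h4 n ((le_trans (le_max_right _ _) (le_max_left _ _)).trans hn)
  obtain ⟨N, s, hNs, hHad, hs⟩ := h1 n ((le_trans (le_max_left _ _) (le_max_left _ _)).trans hn)
  have hn1 : 1 ≤ n := (le_max_right _ _).trans hn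
  have hn0 : (0 : ℝ) < n := by exact_mod_cast hn1
  obtain ⟨z, hz⟩ : ∃ z : ℝ, z = (n : ℝ) ^ (1 / 8 : ℝ) := ⟨_, rfl⟩
  have hz0 : 0 < z := by rw [hz]; positivity
  have hz8 : z ^ 8 = n := by
    rw [hz, ← Real.rpow_natCast, ← Real.rpow_mul hn0.le]; norm_num
  obtain ⟨l, hl⟩ : ∃ l : ℝ, l = Real.log n := ⟨_, rfl⟩
  rw [← hz, ← hl] at h5
  rw [← hl] at h6 hs ⊢
  have hl0 : 0 < l := by linarith
  have hz1 : 1 ≤ z := by linarith
  have hsqn : Real.sqrt n = z ^ 4 := by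
    rw [← hz8, show z ^ 8 = (z ^ 4) ^ 2 by ring, Real.sqrt_sq (by positivity)]
  have hNn : (N : ℝ) = z ^ 8 - s := by
    rw [hz8]
    have : ((N + s : ℕ) : ℝ) = n := by rw [hNs]
    push_cast at this; linarith
  have hsz : (s : ℝ) ≤ z := by nlinarith
  have hzz : z * z ≤ z ^ 8 := by
    calc z * z = z * z * 1 := (mul_one _).symm
      _ ≤ z * z * z ^ 6 := mul_le_mul_of_nonneg_left (one_le_pow₀ hz1) (by positivity)
      _ = z ^ 8 := by ring
  have hz9 : 10 ^ 9 ≤ z := by linarith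
  have hN4 : z ^ 8 / 4 ≤ N := by rw [hNn]; nlinarith
  have hN0 : (0 : ℝ) < N := by
    have : 0 < z ^ 8 := by positivity
    linarith
  have hN0' : 0 < N := by exact_mod_cast hN0
  have hsqN : z ^ 4 / 2 ≤ Real.sqrt N := by
    apply Real.le_sqrt_of_sq_le
    have e : (z ^ 4 / 2) ^ 2 = z ^ 8 / 4 := by ring
    rw [e]; exact hN4
  have hz4 : 10 ^ 12 * (l * l) ≤ z ^ 4 := by
    have h7 : (10 ^ 6 * l) * (10 ^ 6 * l) ≤ z * z := mul_le_mul h5 h5 (by positivity) hz0.le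
    have h8 : z * z ≤ z ^ 4 := by
      calc z * z = z * z * 1 := (mul_one _).symm
        _ ≤ z * z * z ^ 2 := mul_le_mul_of_nonneg_left (one_le_pow₀ hz1) (by positivity)
        _ = z ^ 4 := by ring
    nlinarith
  have hll : l ≤ l * l := by nlinarith
  set L : ℝ := 2 * Real.sqrt l with hL
  have hL2 : L ^ 2 = 4 * l := by rw [hL, mul_pow, Real.sq_sqrt hl0.le]; norm_num
  have hL1 : 1 ≤ L := by
    have : 1 ≤ Real.sqrt l := by rw [Real.one_le_sqrt]; linarith
    rw [hL]; linarith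
  have hz4p : 0 < z ^ 4 := by positivity
  have herr : 40 * L ^ 2 / Real.sqrt N ≤ 320 * l / z ^ 4 := by
    rw [hL2]
    calc 40 * (4 * l) / Real.sqrt N ≤ 40 * (4 * l) / (z ^ 4 / 2) :=
          div_le_div_of_nonneg_left (by positivity) (by positivity) hsqN
      _ = 320 * l / z ^ 4 := by field_simp; ring
  have hserr : s * (40 * L ^ 2 / Real.sqrt N) ≤ 320 * (l * l) / z ^ 4 := by
    calc s * (40 * L ^ 2 / Real.sqrt N) ≤ l * (320 * l / z ^ 4) :=
          mul_le_mul hs herr (by positivity) hl0.le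
      _ = 320 * (l * l) / z ^ 4 := by ring
  have h7 := AF_iter (N := N) hN0' (AF_had hN0' hHad) hL1 (by rw [hL2]; linarith) s (by
    rw [hNs, hL2, Real.log_mul (by norm_num) hn0.ne', ← hl]
    have := Real.log_two_lt_d9
    linarith) (by
    refine hserr.trans ?_
    rw [div_le_one hz4p]
    linarith) s le_rfl
  rw [hNs] at h7
  apply h7.mono
  refine hserr.trans ?_
  rw [hsqn]
  apply div_le_div_of_nonneg_right _ hz4p.le
  have : l ^ 3 = l * (l * l) := by ring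
  rw [this]
  apply mul_le_mul_of_nonneg_right _ (by positivity)
  linarith

/-- the final form -/
theorem orth_final : ∃ N₀ : ℕ, ∀ n : ℕ, N₀ ≤ n → ∃ M : Matrix (Fin n) (Fin n) ℝ,
    M * M.transpose = (n : ℝ) • (1 : Matrix (Fin n) (Fin n) ℝ) ∧
    ∀ i j, |(|M i j| - 1)| ≤ Real.log n ^ 3 / Real.sqrt n := by
  obtain ⟨N₀, h⟩ := orth_main
  refine ⟨N₀, fun n hn => ?_⟩
  obtain ⟨M, hM, hMe⟩ := h n hn
  refine ⟨M, hM, fun i j => ?_⟩
  obtain ⟨e, he, hx⟩ := hMe i j
  refine le_trans ?_ hx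
  have he1 : |e| = 1 := by rcases he with rfl | rfl <;> simp
  rw [← he1]
  exact abs_abs_sub_abs_le_abs_sub _ _

end Pool.Agent.H34AH
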